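import Pool.Agent.TH744.Tree.Tame

set_option autoImplicit false
set_option linter.unusedSectionVars false

/-!
# Cusps capped by solid tori and by tame groups
-/

namespace Pool.Agent.TH744.Tree

open Pool.Agent.TH744.LS (Mono inv_fix)

universe u v

section rel
variable {G X : Type*} [Group G] [LinearOrder X] [MulAction G X]

theorem dm_of_rel (hm : Mono G X) {b M : G} (hc : Commute b M) {P Q : ℤ} (hQ : 1 ≤ Q)
    (hP : 2 * Q ≤ P) (hr : M ^ Q = b ^ P) : Dm X b M :=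
  ⟨fun _ hv => hm.dom2 hc hQ hP hr hv,
    fun v hv => Mono.dom2 (X := Xᵒᵈ) hm.dual hc hQ hP hr (v := v) hv⟩

/-- Filling with slope `p / q`, `|p| ≥ 2 q`. -/
theorem cp_solid (hm : Mono G X) {x l : G} (hc : Commute x l) {p q : ℤ} (hq : 1 ≤ q)
    (hp : 2 * q ≤ |p|) (hr : x ^ p * l ^ q = 1) : Cp X (decide (0 < p)) x l := by
  unfold Cp
  by_cases h0 : 0 < p
  · rw [decide_eq_true h0, if_pos rfl]
    rw [abs_of_pos h0] at hp
    refine dm_of_rel hm hc.inv_left hq hp ?_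
    rw [inv_zpow]; exact eq_inv_of_mul_eq_one_right hr
  · rw [decide_eq_false h0, if_neg (by simp)]
    rw [abs_of_nonpos (by omega)] at hp
    refine dm_of_rel hm hc.inv_left.inv_right hq hp ?_
    rw [inv_zpow, inv_zpow, zpow_neg, inv_inv]; exact (eq_inv_of_mul_eq_one_left hr).symm

end rel

section tame
variable {G : Type v} [Group G] {μ l : G} {X : Type u} [CompleteLinearOrder X]

theorem Tame.det' (h : Tame.{u} G μ l) (ρ : G →* (X ≃o X)) {a b : ℤ} (hab : 2 * |b| < a) {x : X}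
    (hx : ρ μ x < x) : ρ (μ ^ a * l ^ b) x < x :=
  h.det Xᵒᵈ (dualHom ρ) a b hab x hx

theorem Tame.up_of (h : Tame.{u} G μ l) (ρ : G →* (X ≃o X)) {a b : ℤ} (hab : 2 * |b| < a) {x : X}
    (hx : x < ρ (μ ^ a * l ^ b) x) : x < ρ μ x := by
  rcases lt_trichotomy (ρ μ x) x with h1 | h1 | h1
  · exact absurd hx (not_lt.mpr (h.det' ρ hab h1).le)
  · rw [h.fix X ρ x h1] at hx; exact absurd hx (lt_irrefl _)
  · exact h1

theorem Tame.dn_of (h : Tame.{u} G μ l) (ρ : G →* (X ≃o X)) {a b : ℤ} (hab : 2 * |b| < a) {x : X}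
    (hx : ρ (μ ^ a * l ^ b) x < x) : ρ μ x < x := by
  rcases lt_trichotomy (ρ μ x) x with h1 | h1 | h1
  · exact h1
  · rw [h.fix X ρ x h1] at hx; exact absurd hx (lt_irrefl _)
  · exact absurd hx (not_lt.mpr (h.det X ρ a b hab x h1).le)

theorem Tame.fix_of (h : Tame.{u} G μ l) (ρ : G →* (X ≃o X)) {a b : ℤ} (hab : 2 * |b| < a) {x : X}
    (hx : ρ (μ ^ a * l ^ b) x = x) (g : G) : ρ g x = x := by
  rcases lt_trichotomy (ρ μ x) x with h1 | h1 | h1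
  · exact absurd hx (h.det' ρ hab h1).ne
  · exact h.fix X ρ x h1 g
  · exact absurd hx (h.det X ρ a b hab x h1).ne'

theorem Tame.word (h : Tame.{u} G μ l) (a b c d : ℤ) :
    μ ^ c * l ^ d = (μ ^ a * l ^ b) * ((μ ^ a * l ^ b) * (μ ^ (c - 2 * a) * l ^ (d - 2 * b))) := by
  have hc := h.comm
  have e1 : ∀ i j i' j' : ℤ, μ ^ i * l ^ j * (μ ^ i' * l ^ j') = μ ^ (i + i') * l ^ (j + j') := by
    intro i j i' j'
    have h2 : l ^ j * μ ^ i' = μ ^ i' * l ^ j := ((hc.zpow_zpow i' j).eq).symm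
    rw [zpow_add, zpow_add]
    calc μ ^ i * l ^ j * (μ ^ i' * l ^ j') = μ ^ i * (l ^ j * μ ^ i') * l ^ j' := by group
      _ = μ ^ i * (μ ^ i' * l ^ j) * l ^ j' := by rw [h2]
      _ = _ := by group
  rw [e1, e1]
  congr 2 <;> ring

theorem Tame.dms (h : Tame.{u} G μ l) (ρ : G →* (X ≃o X)) {a b c d : ℤ} (hab : 2 * |b| < a)
    (hcd : 2 * |d - 2 * b| < c - 2 * a) :
    DmS X (ρ (μ ^ a * l ^ b)) (ρ (μ ^ c * l ^ d)) := by
  have e : ρ (μ ^ c * l ^ d) = ρ (μ ^ a * l ^ b) *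
      (ρ (μ ^ a * l ^ b) * ρ (μ ^ (c - 2 * a) * l ^ (d - 2 * b))) := by
    rw [← map_mul ρ (μ ^ a * l ^ b) (μ ^ (c - 2 * a) * l ^ (d - 2 * b)), ← map_mul ρ,
      ← h.word a b c d]
  rw [e]
  constructor
  · intro x hx
    have h1 := h.up_of ρ hab hx
    have h2 := h.det X ρ _ _ hcd x h1
    exact (ρ (μ ^ a * l ^ b)).lt_iff_lt.mpr ((ρ (μ ^ a * l ^ b)).lt_iff_lt.mpr h2)
  · intro x hx
    have h1 := h.dn_of ρ hab hx
    have h2 := h.det' ρ hcd h1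
    exact (ρ (μ ^ a * l ^ b)).lt_iff_lt.mpr ((ρ (μ ^ a * l ^ b)).lt_iff_lt.mpr h2)

theorem Tame.dm (h : Tame.{u} G μ l) (ρ : G →* (X ≃o X)) {a b c d : ℤ} (hab : 2 * |b| < a)
    (hcd : 2 * |d - 2 * b| < c - 2 * a) :
    Dm X (ρ (μ ^ a * l ^ b)) (ρ (μ ^ c * l ^ d)) := by
  have hs := h.dms ρ hab hcd
  constructor
  · intro x hx
    rcases eq_or_lt_of_le hx with h1 | h1
    · have h2 := h.fix_of ρ hab h1.symm
      show ρ _ (ρ _ x) ≤ ρ _ x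
      rw [h2, h2, h2]
    · exact (hs.up x h1).le
  · intro x hx
    rcases eq_or_lt_of_le hx with h1 | h1
    · have h2 := h.fix_of ρ hab h1
      show ρ _ x ≤ ρ _ (ρ _ x)
      rw [h2, h2, h2]
    · exact (hs.dn x h1).le

/-- The numerical condition on a gluing matrix; `σ` is the sign of the slopes. -/
def Mat (σ : Bool) (a b c d : ℤ) : Prop :=
  2 * |b| < a ∧ if σ then 2 * |d + 2 * b| < -c - 2 * a else 2 * |d - 2 * b| < c - 2 * a

theorem Tame.dmS_if (h : Tame.{u} G μ l) (ρ : G →* (X ≃o X)) {σ : Bool} {a b c d : ℤ}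
    (hM : Mat σ a b c d) :
    DmS X (ρ (μ ^ a * l ^ b)) (if σ then (ρ (μ ^ c * l ^ d))⁻¹ else ρ (μ ^ c * l ^ d)) ∧
    Dm X (ρ (μ ^ a * l ^ b)) (if σ then (ρ (μ ^ c * l ^ d))⁻¹ else ρ (μ ^ c * l ^ d)) := by
  cases σ
  · exact ⟨h.dms ρ hM.1 hM.2, h.dm ρ hM.1 hM.2⟩
  · have h1 : 2 * |d + 2 * b| < -c - 2 * a := hM.2
    have h2 : 2 * |(-d) - 2 * b| < (-c) - 2 * a := by
      have e : (-d) - 2 * b = -(d + 2 * b) := by ring
      rw [e, abs_neg]; exact h1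
    have e1 : (ρ (μ ^ c * l ^ d))⁻¹ = ρ (μ ^ (-c) * l ^ (-d)) := by
      rw [← map_inv, mul_inv_rev, zpow_neg, zpow_neg]
      congr 1
      exact ((h.comm.zpow_zpow c d).inv_inv.eq).symm
    show DmS X _ (ρ (μ ^ c * l ^ d))⁻¹ ∧ Dm X _ (ρ (μ ^ c * l ^ d))⁻¹
    rw [e1]
    exact ⟨h.dms ρ hM.1 h2, h.dm ρ hM.1 h2⟩

theorem Tame.cps (h : Tame.{u} G μ l) (ρ : G →* (X ≃o X)) {σ : Bool} {a b c d : ℤ}
    (hM : Mat σ a b c d) : CpS X σ (ρ (μ ^ a * l ^ b)) (ρ (μ ^ c * l ^ d)) := by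
  have h1 := (h.dmS_if ρ hM).1.inv mono_aut
  unfold CpS
  cases σ
  · exact h1
  · have e : ((if (true : Bool) then (ρ (μ ^ c * l ^ d))⁻¹ else ρ (μ ^ c * l ^ d)))⁻¹ =
        ρ (μ ^ c * l ^ d) := by rw [if_pos rfl, inv_inv]
    rw [e] at h1
    exact h1

theorem Tame.cp (h : Tame.{u} G μ l) (ρ : G →* (X ≃o X)) {σ : Bool} {a b c d : ℤ}
    (hM : Mat σ a b c d) : Cp X σ (ρ (μ ^ a * l ^ b)) (ρ (μ ^ c * l ^ d)) := by
  have h1 := (h.dmS_if ρ hM).2.inv mono_aut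
  unfold Cp
  cases σ
  · exact h1
  · have e : ((if (true : Bool) then (ρ (μ ^ c * l ^ d))⁻¹ else ρ (μ ^ c * l ^ d)))⁻¹ =
        ρ (μ ^ c * l ^ d) := by rw [if_pos rfl, inv_inv]
    rw [e] at h1
    exact h1

end tame

end Pool.Agent.TH744.Tree
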