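import Pool.Agent.TH744.Tree.Grow

set_option autoImplicit false
set_option linter.unusedSectionVars false

/-!
# Chain links all of whose cusps are capped by dominating pairs: the action is trivial
-/

namespace Pool.Agent.TH744.Tree

open Pool.Agent.TH744.LS (Mono inv_fix)
open Pool.Agent.TH744.Chain (Pair Mel mel_ff mel_ft mel_tf mel_tt mel_comm CA CB Clo Up Dn Fx
  Fx.mul Fx.inv Fx.mem Fx.mel Fx.dual Dn.inv_up pair_conj pair_conj' up_conj_inv exists_comp St Gt
  St.dual Gt.dual prev_eq)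

section J
variable {G X : Type*} [Group G] [LinearOrder X] [MulAction G X] {α β : X}
variable {y : ℕ → G} {c : G} {s : ℕ → Bool}

/-- Strict growth at a weak vertex. -/
theorem fw (hm : Mono G X) (h : Sq X y c s) (hy : ∀ i, Fx α β (y i)) (hc : Fx α β c)
    {i : ℕ} (h1 : Up α β (y (i + 1)))
    (h0 : (s i = s (i + 1) ∧ Dn α β (y i)) ∨ (s i ≠ s (i + 1) ∧ Up α β (y i))) :
    ∀ v, α < v → v < β → y (i + 1) • v < y (i + 2) • v := by
  intro v v1 v2
  have hp := h.pair i
  have hp' := h.pair (i + 1)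
  have hD := h.dm i
  have ha := hy i
  have hb := hy (i + 1)
  have hb' := hy (i + 2)
  have hM := Fx.mel (σ := s i) (σ' := s (i + 1)) hc ha hb'
  change Dm X (y (i + 1)) (Mel (s i) (s (i + 1)) c (y i) (y (i + 2))) at hD
  change Pair (s (i + 1)) c (y (i + 1)) (y (i + 2)) at hp'
  generalize y i = a at *
  generalize y (i + 1) = b at *
  generalize y (i + 2) = b' at *
  generalize s i = σ at *
  generalize s (i + 1) = σ' at *
  have hbv := h1 v v1 v2
  -- `M` is at least `b`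
  have hMb : ∀ w, α < w → w < β → b • w ≤ Mel σ σ' c a b' • w := fun w w1 w2 =>
    hD.up1 hm (h1 w w1 w2).le
  rcases h0 with ⟨hs, hdn⟩ | ⟨hs, hup⟩
  · have hai := hdn.inv_up hm
    subst hs
    cases σ
    · obtain ⟨e, -⟩ := mel_ff hp hp'
      generalize Mel false false c a b' = M at *
      rw [e, mul_smul, mul_smul, mul_smul, hm.lt]
      have w1 := hM.mem hm v1 v2
      have w2 := hb.inv.mem hm w1.1 w1.2
      refine lt_of_le_of_lt ?_ (hai _ w2.1 w2.2)
      rw [hm.le_inv]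
      have := hD.up _ hbv.le
      exact ((hm.lt b).mpr hbv).le.trans this
    · obtain ⟨e, -⟩ := mel_tt hp hp'
      generalize Mel true true c a b' = M at *
      have w1 := hb.mem hm v1 v2
      have h3 : v < b⁻¹ • a⁻¹ • b • v := by
        rw [← hm.lt b, smul_inv_smul]; exact hai _ w1.1 w1.2
      rw [e, mul_smul, mul_smul, mul_smul]
      exact lt_of_le_of_lt (hMb v v1 v2) ((hm.lt M).mpr h3)
  · have hne : σ' = !σ := by cases σ <;> cases σ' <;> simp_all
    subst hne
    cases σ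
    · obtain ⟨e, -⟩ := mel_ft hp hp'
      change b • v < b' • v
      have hMb' : b • v ≤ Mel false true c a b' • v := hMb v v1 v2
      generalize Mel false true c a b' = M at *
      rw [e, mul_smul]
      exact lt_of_le_of_lt hMb' ((hm.lt M).mpr (hup v v1 v2))
    · obtain ⟨e, -⟩ := mel_tf hp hp'
      change b • v < b' • v
      have hMb' : b • v ≤ Mel true false c a b' • v := hMb v v1 v2
      have hM' : Fx α β (Mel true false c a b') := hM
      generalize Mel true false c a b' = M at *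
      rw [e, mul_smul]
      have w1 := hM'.mem hm v1 v2
      exact lt_of_le_of_lt hMb' (hup _ w1.1 w1.2)

/-- After half a twist the direction is reversed. -/
theorem up_half (hm : Mono G X) (h : Sq X y c s) (hy : ∀ i, Fx α β (y i)) {n : ℕ}
    (hclo : (∀ i, y (i + n) = c * (y i)⁻¹) ∨ (∀ i, y (i + n) = (y i)⁻¹ * c)) {i : ℕ}
    (hu : Up α β (y (i + n))) : Dn α β (y i) := by
  rcases hclo with hd | hd
  · obtain ⟨g, hg, e⟩ := pair_conj (h.pair i) (hy i) (hy (i + 1))
    rw [hd, e] at hu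
    exact up_conj_inv hm hg hu
  · obtain ⟨g, hg, e⟩ := pair_conj' (h.pair i) (hy i) (hy (i + 1))
    rw [hd, e] at hu
    exact up_conj_inv hm hg hu

/-- There is no weak vertex. -/
theorem fw_false (hm : Mono G X) (h : Sq X y c s) {n : ℕ} (hn : 1 ≤ n) (hclo : Clo n y c)
    (hy : ∀ i, Fx α β (y i)) (hc : Fx α β c) {v0 : X} (hv1 : α < v0) (hv2 : v0 < β)
    {i : ℕ} (h1 : Up α β (y (i + 1)))
    (h0 : (s i = s (i + 1) ∧ Dn α β (y i)) ∨ (s i ≠ s (i + 1) ∧ Up α β (y i))) : False := by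
  have hfw := fw hm h hy hc h1 h0
  have grow : ∀ v, α < v → v < β → ∀ m,
      CB (s (i + 1 + m)) v (y (i + 1 + m)) (y (i + 1 + m + 1)) := by
    intro v v1 v2 m
    refine growB hm h.pair ?_ m fun _ _ => h.dm _
    have w := (hy (i + 2)).mem hm v1 v2
    exact ⟨(h1 v v1 v2).le, (hfw v v1 v2).le, (h1 v v1 v2).trans (hfw v v1 v2),
      fun _ => (h1 _ w.1 w.2).le⟩
  obtain ⟨k, rfl⟩ := Nat.exists_eq_add_of_le' hn
  rcases hclo with hd | hd
  · have up : ∀ m, y (i + 2) • v0 ≤ y (i + 2 + m) • v0 := by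
      intro m
      induction m with
      | zero => exact le_rfl
      | succ m ih =>
        refine ih.trans ?_
        have := (grow v0 hv1 hv2 (m + 1)).c2
        have e1 : i + 1 + (m + 1) = i + 2 + m := by ring
        rw [e1] at this
        exact this
    have h2 := up k
    have e : i + 2 + k = i + 1 + (k + 1) := by ring
    rw [e, hd] at h2
    exact absurd (hfw v0 hv1 hv2) (not_lt.mpr h2)
  · have hup : Up α β (y (i + 1 + (k + 1))) := fun v v1 v2 => (grow v v1 v2 k).c0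
    have := up_half hm h hy hd hup
    exact absurd (h1 v0 hv1 hv2) (not_lt.mpr (this v0 hv1 hv2).le)

/-- The directions of the meridians are determined by the signs of the slopes. -/
theorem signs (hm : Mono G X) (h : Sq X y c s) {n : ℕ} (hn : 1 ≤ n) (hclo : Clo n y c)
    (hy : ∀ i, Fx α β (y i)) (hc : Fx α β c) {v0 : X} (hv1 : α < v0) (hv2 : v0 < β)
    {σ : ℕ → Bool} (hσ : ∀ i, (σ i = true → Up α β (y i)) ∧ (σ i = false → Dn α β (y i)))
    (i : ℕ) : (s i = s (i + 1) ↔ σ i = σ (i + 1)) := by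
  by_contra hcon
  have hyd : ∀ i, Fx (X := Xᵒᵈ) β α (y i) := fun i => ⟨(hy i).2, (hy i).1⟩
  have hcd : Fx (X := Xᵒᵈ) β α c := ⟨hc.2, hc.1⟩
  rcases hb : σ (i + 1) with _ | _
  · have h1 : Up (X := Xᵒᵈ) β α (y (i + 1)) := fun v w1 w2 => (hσ (i + 1)).2 hb v w2 w1
    refine fw_false (X := Xᵒᵈ) hm.dual h.dual hn hclo hyd hcd (v0 := v0) hv2 hv1 h1 ?_
    rcases ha : σ i with _ | _
    · right
      refine ⟨fun hs => hcon ⟨fun _ => by rw [ha, hb], fun _ => hs⟩, ?_⟩
      exact fun v w1 w2 => (hσ i).2 ha v w2 w1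
    · left
      refine ⟨?_, fun v w1 w2 => (hσ i).1 ha v w2 w1⟩
      by_contra hs
      exact hcon ⟨fun h' => absurd h' hs, fun h' => by rw [ha, hb] at h'; simp at h'⟩
  · have h1 : Up α β (y (i + 1)) := (hσ (i + 1)).1 hb
    refine fw_false hm h hn hclo hy hc hv1 hv2 h1 ?_
    rcases ha : σ i with _ | _
    · left
      refine ⟨?_, (hσ i).2 ha⟩
      by_contra hs
      exact hcon ⟨fun h' => absurd h' hs, fun h' => by rw [ha, hb] at h'; simp at h'⟩
    · right
      exact ⟨fun hs => hcon ⟨fun _ => by rw [ha, hb], fun _ => hs⟩, (hσ i).1 ha⟩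

/-- No component if the sequence closes up with half a twist. -/
theorem no_comp_half (hm : Mono G X) (h : Sq X y c s) {n : ℕ} (hn : 1 ≤ n)
    (hclo : (∀ i, y (i + n) = c * (y i)⁻¹) ∨ (∀ i, y (i + n) = (y i)⁻¹ * c))
    (hs : ∀ i, s (i + n) = s i)
    (hy : ∀ i, Fx α β (y i)) (hc : Fx α β c) {v0 : X} (hv1 : α < v0) (hv2 : v0 < β)
    {σ : ℕ → Bool} (hσ : ∀ i, (σ i = true → Up α β (y i)) ∧ (σ i = false → Dn α β (y i))) :
    False := by
  have key := signs hm h hn (Or.inr hclo) hy hc hv1 hv2 hσ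
  have const : ∀ m, (s 0 = s m ↔ σ 0 = σ m) := by
    intro m
    induction m with
    | zero => simp
    | succ m ih =>
      have := key m
      cases h1 : s 0 <;> cases h2 : s m <;> cases h3 : s (m + 1) <;> cases h4 : σ 0 <;>
        cases h5 : σ m <;> cases h6 : σ (m + 1) <;> simp_all
  have hn0 : s 0 = s n := by have := hs 0; rw [zero_add] at this; exact this.symm
  have hσn : σ 0 = σ n := (const n).mp hn0
  have e : (0 : ℕ) + n = n := zero_add n
  rcases hb : σ n with _ | _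
  · -- `y n` moves down, so `y 0` moves up
    have h1 : Up (X := Xᵒᵈ) β α (y (0 + n)) := by
      rw [e]; exact fun v w1 w2 => (hσ n).2 hb v w2 w1
    have h2 := up_half (X := Xᵒᵈ) hm.dual h.dual (fun i => ⟨(hy i).2, (hy i).1⟩) hclo h1
    have h3 : v0 < y 0 • v0 := h2 v0 hv2 hv1
    have h4 := (hσ 0).2 (hσn.trans hb) v0 hv1 hv2
    exact absurd h3 (not_lt.mpr h4.le)
  · have h1 : Up α β (y (0 + n)) := by rw [e]; exact (hσ n).1 hb
    have h2 := up_half hm h hy hclo h1
    have h3 := h2 v0 hv1 hv2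
    have h4 := (hσ 0).1 (hσn.trans hb) v0 hv1 hv2
    exact absurd h4 (not_lt.mpr h3.le)

/-- The backward step. -/
theorem bk (hm : Mono G X) {σ σ' : Bool} {a' a b : G} (h : Pair σ c a' a) (h' : Pair σ' c a b)
    (hD : Dm X a (Mel σ σ' c a' b))
    (ha' : Fx α β a') (ha : Fx α β a) (hb : Fx α β b) (hc : Fx α β c)
    (hup : Up α β a) (hba : ∀ v, α < v → v < β → b • v ≤ a • v) :
    (∀ v, α < v → v < β → a • v ≤ a' • v) ∨ (∀ v, α < v → v < β → a • v ≤ a'⁻¹ • v) := by
  have hM := Fx.mel (σ := σ) (σ' := σ') hc ha' hb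
  have hMM : ∀ w, α < w → w < β → a • a • w ≤ Mel σ σ' c a' b • w := fun w w1 w2 =>
    hD.up _ (hup w w1 w2).le
  -- `b⁻¹ (a w) ≥ w`
  have hb' : ∀ w, α < w → w < β → w ≤ b⁻¹ • a • w := by
    intro w w1 w2
    rw [hm.le_inv]; exact hba w w1 w2
  rcases prev_eq h h' with ⟨-, e | e⟩ | ⟨-, e | e⟩
  · left
    intro v v1 v2
    generalize Mel σ σ' c a' b = M at *
    rw [e, mul_smul, mul_smul, mul_smul, hm.le]
    have w := ha.inv.mem hm v1 v2
    have h1 := hMM _ w.1 w.2
    rw [smul_inv_smul] at h1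
    have h2 := (hm.le b⁻¹).mpr h1
    exact (hb' v v1 v2).trans h2
  · left
    intro v v1 v2
    generalize Mel σ σ' c a' b = M at *
    rw [e, mul_smul, mul_smul, mul_smul, hm.le_inv]
    have h2 := (hm.le M).mpr (hb' v v1 v2)
    exact (hMM v v1 v2).trans h2
  · right
    intro v v1 v2
    generalize Mel σ σ' c a' b = M at *
    rw [e, mul_smul]
    have w := ha.mem hm v1 v2
    have h2 := (hm.le b⁻¹).mpr (hMM v v1 v2)
    exact (hb' _ w.1 w.2).trans h2
  · right
    intro v v1 v2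
    generalize Mel σ σ' c a' b = M at *
    rw [e, mul_smul]
    have w := ha.inv.mem hm v1 v2
    have h1 := hb' _ w.1 w.2
    rw [smul_inv_smul] at h1
    have h2 := (hm.le M).mpr h1
    have h3 := hMM _ w.1 w.2
    rw [smul_inv_smul] at h3
    exact h3.trans h2

/-- Strict form of the backward step. -/
theorem bk_strict (hm : Mono G X) {σ σ' : Bool} {a' a b : G} (h : Pair σ c a' a)
    (h' : Pair σ' c a b) (hD : Dm X a (Mel σ σ' c a' b))
    (ha' : Fx α β a') (ha : Fx α β a) (hb : Fx α β b) (hc : Fx α β c)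
    (hup : Up α β a) (hdn : Dn α β b) :
    (∀ v, α < v → v < β → a • v < a' • v) ∨ (∀ v, α < v → v < β → a • v < a'⁻¹ • v) := by
  have hM := Fx.mel (σ := σ) (σ' := σ') hc ha' hb
  have hMM : ∀ w, α < w → w < β → a • w < Mel σ σ' c a' b • w := fun w w1 w2 =>
    lt_of_lt_of_le ((hm.lt a).mpr (hup w w1 w2)) (hD.up _ (hup w w1 w2).le)
  have hb' : Up α β b⁻¹ := hdn.inv_up hm
  rcases prev_eq h h' with ⟨-, e | e⟩ | ⟨-, e | e⟩
  · left
    intro v v1 v2
    generalize Mel σ σ' c a' b = M at *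
    rw [e, mul_smul, mul_smul, mul_smul, hm.lt]
    have w := ha.inv.mem hm v1 v2
    have h1 := hMM _ w.1 w.2
    rw [smul_inv_smul] at h1
    have w' := hM.mem hm w.1 w.2
    exact h1.trans (hb' _ w'.1 w'.2)
  · left
    intro v v1 v2
    generalize Mel σ σ' c a' b = M at *
    rw [e, mul_smul, mul_smul, mul_smul, ← hm.lt a, smul_inv_smul]
    have w := ha.mem hm v1 v2
    have h2 := hb' _ w.1 w.2
    have h3 := (hm.lt M).mpr h2
    exact (hMM _ w.1 w.2).trans h3
  · right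
    intro v v1 v2
    generalize Mel σ σ' c a' b = M at *
    rw [e, mul_smul]
    have w := hM.mem hm v1 v2
    exact (hMM v v1 v2).trans (hb' _ w.1 w.2)
  · right
    intro v v1 v2
    generalize Mel σ σ' c a' b = M at *
    rw [e, mul_smul]
    exact (hMM v v1 v2).trans ((hm.lt M).mpr (hb' v v1 v2))

theorem step_back_aux (hm : Mono G X) {σ σ' : Bool} {a' a b g : G} (h : Pair σ c a' a)
    (h' : Pair σ' c a b) (hD : Dm X a (Mel σ σ' c a' b))
    (ha' : Fx α β a') (ha : Fx α β a) (hb : Fx α β b) (hc : Fx α β c) (hg : Fx α β g)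
    (hup : Up α β a) (hba : ∀ v, α < v → v < β → b • v ≤ a • v)
    (hga : ∀ v, α < v → v < β → g • v < a • v ∧ g⁻¹ • v < a • v) :
    St α β a' a ∧ Gt α β a' g := by
  rcases bk hm h h' hD ha' ha hb hc hup hba with h1 | h1
  · have hu : Up α β a' := fun v v1 v2 => lt_of_lt_of_le (hup v v1 v2) (h1 v v1 v2)
    exact ⟨Or.inl ⟨hu, h1⟩, Or.inl ⟨hu, fun v v1 v2 =>
      ⟨lt_of_lt_of_le (hga v v1 v2).1 (h1 v v1 v2),
        lt_of_lt_of_le (hga v v1 v2).2 (h1 v v1 v2)⟩⟩⟩
  · have hd : Dn α β a' := by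
      intro v v1 v2
      have w := ha'.mem hm v1 v2
      have h2 := lt_of_lt_of_le (hup _ w.1 w.2) (h1 _ w.1 w.2)
      rwa [inv_smul_smul] at h2
    refine ⟨Or.inr ⟨hd, fun v v1 v2 => ((hd v v1 v2).trans (hup v v1 v2)).le⟩,
      Or.inr ⟨hd, fun v v1 v2 => ⟨?_, ?_⟩⟩⟩
    · have w := hg.mem hm v1 v2
      have h2 := lt_of_lt_of_le (hga _ w.1 w.2).2 (h1 _ w.1 w.2)
      rw [inv_smul_smul] at h2
      have h3 := (hm.lt a').mpr h2
      rwa [smul_inv_smul] at h3
    · have w := hg.inv.mem hm v1 v2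
      have h2 := lt_of_lt_of_le (hga _ w.1 w.2).1 (h1 _ w.1 w.2)
      rw [smul_inv_smul] at h2
      have h3 := (hm.lt a').mpr h2
      rwa [smul_inv_smul] at h3

theorem step_back (hm : Mono G X) {σ σ' : Bool} {a' a b g : G} (h : Pair σ c a' a)
    (h' : Pair σ' c a b) (hD : Dm X a (Mel σ σ' c a' b))
    (ha' : Fx α β a') (ha : Fx α β a) (hb : Fx α β b) (hc : Fx α β c) (hg : Fx α β g)
    {v0 : X} (hv1 : α < v0) (hv2 : v0 < β)
    (hst : St α β a b) (hgt : Gt α β a g) :
    St α β a' a ∧ Gt α β a' g := by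
  rcases hst with ⟨h1, h2⟩ | ⟨h1, h2⟩
  · rcases hgt with ⟨h3, h4⟩ | ⟨h3, h4⟩
    · exact step_back_aux hm h h' hD ha' ha hb hc hg h1 h2 h4
    · exact absurd (h1 v0 hv1 hv2) (not_lt.mpr (h3 v0 hv1 hv2).le)
  · rcases hgt with ⟨h3, h4⟩ | ⟨h3, h4⟩
    · exact absurd (h1 v0 hv1 hv2) (not_lt.mpr (h3 v0 hv1 hv2).le)
    · have := step_back_aux (X := Xᵒᵈ) hm.dual h h' hD.dual ha'.dual ha.dual hb.dual hc.dual
        hg.dual (fun v v1 v2 => h1 v v2 v1) (fun v v1 v2 => h2 v v2 v1)
        (fun v v1 v2 => h4 v v2 v1)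
      exact ⟨this.1.dual, this.2.dual⟩

theorem start_back_aux (hm : Mono G X) {σ σ' : Bool} {a' a b : G} (h : Pair σ c a' a)
    (h' : Pair σ' c a b) (hD : Dm X a (Mel σ σ' c a' b))
    (ha' : Fx α β a') (ha : Fx α β a) (hb : Fx α β b) (hc : Fx α β c)
    (hup : Up α β a) (hdn : Dn α β b) :
    St α β a' a ∧ Gt α β a' a := by
  have hai : ∀ v, α < v → v < β → a⁻¹ • v < v := by
    intro v v1 v2
    rw [hm.inv_lt]; exact hup v v1 v2
  rcases bk_strict hm h h' hD ha' ha hb hc hup hdn with h1 | h1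
  · have hu : Up α β a' := fun v v1 v2 => (hup v v1 v2).trans (h1 v v1 v2)
    exact ⟨Or.inl ⟨hu, fun v v1 v2 => (h1 v v1 v2).le⟩, Or.inl ⟨hu, fun v v1 v2 =>
      ⟨h1 v v1 v2, (hai v v1 v2).trans (hu v v1 v2)⟩⟩⟩
  · have hd : Dn α β a' := by
      intro v v1 v2
      have w := ha'.mem hm v1 v2
      have h2 := (hup _ w.1 w.2).trans (h1 _ w.1 w.2)
      rwa [inv_smul_smul] at h2
    refine ⟨Or.inr ⟨hd, fun v v1 v2 => ((hd v v1 v2).trans (hup v v1 v2)).le⟩,
      Or.inr ⟨hd, fun v v1 v2 => ⟨(hd v v1 v2).trans (hup v v1 v2), ?_⟩⟩⟩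
    have w := ha.inv.mem hm v1 v2
    have h2 := h1 _ w.1 w.2
    rw [smul_inv_smul] at h2
    have h3 := (hm.lt a').mpr h2
    rwa [smul_inv_smul] at h3

/-- The signs of the slopes do not change. -/
theorem no_mixed (hm : Mono G X) (h : Sq X y c s) {n : ℕ}
    (hn : 1 ≤ n) (hclo : ∀ i, y (i + n) = y i) (hs : ∀ i, s (i + n) = s i)
    (hy : ∀ i, Fx α β (y i)) (hc : Fx α β c) {v0 : X} (hv1 : α < v0) (hv2 : v0 < β)
    {σ : ℕ → Bool} (hσ : ∀ i, (σ i = true → Up α β (y i)) ∧ (σ i = false → Dn α β (y i)))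
    (i0 : ℕ) : s i0 = s (i0 + 1) := by
  by_contra hne
  have key := signs hm h hn (Or.inl hclo) hy hc hv1 hv2 hσ
  have hne' : s (i0 + n) ≠ s (i0 + n + 1) := by
    have e : i0 + n + 1 = i0 + 1 + n := by ring
    rw [e, hs, hs]; exact hne
  have hσne : σ (i0 + n) ≠ σ (i0 + n + 1) := fun hh => hne' ((key (i0 + n)).mpr hh)
  -- the first step
  have first : ∀ i, i + 1 = i0 + n → St α β (y i) (y (i + 1)) ∧ Gt α β (y i) (y (i + 1)) := by
    intro i hi
    rw [← hi] at hσne
    rcases ha : σ (i + 1) with _ | _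
    · have hb : σ (i + 1 + 1) = true := by
        rw [ha] at hσne; cases hb : σ (i + 1 + 1) <;> simp_all
      have h1 : Up (X := Xᵒᵈ) β α (y (i + 1)) := fun v w1 w2 => (hσ (i + 1)).2 ha v w2 w1
      have h2 : Dn (X := Xᵒᵈ) β α (y (i + 2)) := fun v w1 w2 => (hσ (i + 2)).1 hb v w2 w1
      have := start_back_aux (X := Xᵒᵈ) hm.dual (h.pair i) (h.pair (i + 1)) (h.dm i).dual
        (hy i).dual (hy (i + 1)).dual (hy (i + 2)).dual hc.dual h1 h2
      exact ⟨this.1.dual, this.2.dual⟩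
    · have hb : σ (i + 1 + 1) = false := by
        rw [ha] at hσne; cases hb : σ (i + 1 + 1) <;> simp_all
      exact start_back_aux hm (h.pair i) (h.pair (i + 1)) (h.dm i)
        (hy i) (hy (i + 1)) (hy (i + 2)) hc ((hσ (i + 1)).1 ha) ((hσ (i + 2)).2 hb)
  have all : ∀ k i, i + k + 1 = i0 + n →
      St α β (y i) (y (i + 1)) ∧ Gt α β (y i) (y (i0 + n)) := by
    intro k
    induction k with
    | zero =>
      intro i hi
      have := first i hi
      have e : i + 1 = i0 + n := hi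
      rw [← e]; exact this
    | succ k ih =>
      intro i hi
      have h1 := ih (i + 1) (by omega)
      exact step_back hm (h.pair i) (h.pair (i + 1)) (h.dm i)
        (hy i) (hy (i + 1)) (hy (i + 2)) hc (hy (i0 + n)) hv1 hv2 h1.1 h1.2
  obtain ⟨k, rfl⟩ := Nat.exists_eq_add_of_le' hn
  have h1 := (all k i0 (by ring)).2
  rw [hclo] at h1
  rcases h1 with ⟨-, h2⟩ | ⟨-, h2⟩
  · exact lt_irrefl _ (h2 v0 hv1 hv2).1
  · exact lt_irrefl _ (h2 v0 hv1 hv2).1

theorem all_up_aux (hm : Mono G X) (h : Sq X y c s)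
    (hs : ∀ i, s i = s (i + 1)) (hy : ∀ i, Fx α β (y i))
    (hup : ∀ i, Up α β (y i)) (i : ℕ) (v : X) (v1 : α < v) (v2 : v < β) :
    (y i)⁻¹ • y (i + 1) • v ≤ (y (i + 1))⁻¹ • y (i + 2) • v := by
  have hp := h.pair i
  have hp' := h.pair (i + 1)
  have hD := h.dm i
  have ha := hy i
  have hb := hy (i + 1)
  have hub := hup (i + 1)
  have hs' := hs i
  change Dm X (y (i + 1)) (Mel (s i) (s (i + 1)) c (y i) (y (i + 2))) at hD
  change Pair (s (i + 1)) c (y (i + 1)) (y (i + 2)) at hp'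
  generalize y i = a at *
  generalize y (i + 1) = b at *
  generalize y (i + 2) = b' at *
  generalize s i = σ at *
  generalize s (i + 1) = σ' at *
  subst hs'
  rw [hm.le_inv]
  cases σ
  · obtain ⟨e, -⟩ := mel_ff hp hp'
    have h1 := hD.up _ (hub v v1 v2).le
    generalize Mel false false c a b' = M at *
    rw [e, mul_smul, mul_smul, mul_smul, hm.le, hm.le, hm.le_inv]
    exact h1
  · obtain ⟨e, -⟩ := mel_tt hp hp'
    have w1 := hb.mem hm v1 v2
    have w2 := ha.inv.mem hm w1.1 w1.2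
    have w3 := hb.inv.mem hm w2.1 w2.2
    have h1 := hD.up _ (hub _ w3.1 w3.2).le
    rw [smul_inv_smul] at h1
    generalize Mel true true c a b' = M at *
    rw [e, mul_smul, mul_smul, mul_smul]
    exact h1

/-- In the untwisted case with all slopes of one sign no cusp is capped strictly. -/
theorem no_strict (hm : Mono G X) (h : Sq X y c s) {n : ℕ}
    (hn : 1 ≤ n) (hclo : ∀ i, y (i + n) = y i)
    (hs : ∀ i, s i = s (i + 1)) (hy : ∀ i, Fx α β (y i))
    {v0 : X} (hv1 : α < v0) (hv2 : v0 < β)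
    (hup : ∀ i, Up α β (y i)) (i : ℕ)
    (hS : DmS X (y (i + 1)) (Mel (s i) (s (i + 1)) c (y i) (y (i + 2)))) : False := by
  have mono := all_up_aux hm h hs hy hup
  -- equality
  have chain : ∀ m j v, α < v → v < β →
      (y j)⁻¹ • y (j + 1) • v ≤ (y (j + m))⁻¹ • y (j + m + 1) • v := by
    intro m
    induction m with
    | zero => intro j v _ _; exact le_rfl
    | succ m ih =>
      intro j v w1 w2
      exact (ih j v w1 w2).trans (mono (j + m) v w1 w2)
  have eq : ∀ v, α < v → v < β →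
      (y (i + 1))⁻¹ • y (i + 2) • v = (y i)⁻¹ • y (i + 1) • v := by
    intro v w1 w2
    refine le_antisymm ?_ (mono i v w1 w2)
    obtain ⟨k, hk⟩ := Nat.exists_eq_add_of_le' hn
    have h1 := chain k (i + 1) v w1 w2
    have e1 : i + 1 + k = i + n := by omega
    rw [e1] at h1
    have e2 : i + n + 1 = i + 1 + n := by omega
    rw [e2, hclo, hclo] at h1
    exact h1
  have hp := h.pair i
  have hp' := h.pair (i + 1)
  have ha := hy i
  have hb := hy (i + 1)
  have hub := hup (i + 1)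
  have hs' := hs i
  change Pair (s (i + 1)) c (y (i + 1)) (y (i + 2)) at hp'
  generalize y i = a at *
  generalize y (i + 1) = b at *
  generalize y (i + 2) = b' at *
  generalize s i = σ at *
  generalize s (i + 1) = σ' at *
  subst hs'
  -- `M` acts as `b ^ 2`
  have hM : ∀ w, α < w → w < β → Mel σ σ c a b' • w = b • b • w := by
    intro w w1 w2
    cases σ
    · obtain ⟨e, -⟩ := mel_ff hp hp'
      have h1 := eq w w1 w2
      generalize Mel false false c a b' = M at *
      rw [e, mul_smul, mul_smul, mul_smul, inv_smul_smul] at h1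
      have h2 := smul_left_cancel _ h1
      rw [inv_smul_eq_iff] at h2
      exact h2
    · obtain ⟨e, -⟩ := mel_tt hp hp'
      have u1 := hb.mem hm w1 w2
      have u2 := ha.mem hm u1.1 u1.2
      have u3 := hb.inv.mem hm u2.1 u2.2
      have h1 := eq _ u3.1 u3.2
      generalize Mel true true c a b' = M at *
      rw [e, mul_smul, mul_smul, mul_smul, smul_inv_smul, inv_smul_smul, inv_smul_smul,
        inv_smul_eq_iff] at h1
      exact h1
  have h1 := hS.up _ (hub v0 hv1 hv2)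
  rw [hM v0 hv1 hv2] at h1
  exact lt_irrefl _ h1

end J

section comp
variable {G X : Type*} [Group G] [CompleteLinearOrder X] [MulAction G X]
variable {y : ℕ → G} {c : G} {s : ℕ → Bool}

/-- The action is trivial if the sequence closes up with half a twist. -/
theorem trivial_half (hm : Mono G X)
    (h : Sq X y c s) {n : ℕ} (hn : 1 ≤ n)
    (hclo : (∀ i, y (i + n) = c * (y i)⁻¹) ∨ (∀ i, y (i + n) = (y i)⁻¹ * c))
    (hs : ∀ i, s (i + n) = s i) (v : X) : c • v = v ∧ ∀ i, y i • v = v := by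
  have hfix : ∀ (f : X) (j : ℕ), y j • f = f → c • f = f ∧ ∀ i, y i • f = f := fun f j hj =>
    fix_all hm h hn (Or.inr hclo) hj
  by_cases h0 : y 0 • v = v
  · exact hfix v 0 h0
  · obtain ⟨α, β, v1, v2, hy, hc, σ, hσ⟩ := exists_comp hm hfix h0
    exact (no_comp_half hm h hn hclo hs hy hc v1 v2 hσ).elim

/-- The action is trivial if the sequence closes up without twist and some cusp is capped
strictly. -/
theorem trivial_zero (hm : Mono G X)
    (h : Sq X y c s) {n : ℕ} (hn : 1 ≤ n)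
    (hclo : ∀ i, y (i + n) = y i) (hs : ∀ i, s (i + n) = s i)
    (hex : ∃ i, DmS X (y (i + 1)) (Mel (s i) (s (i + 1)) c (y i) (y (i + 2)))) (v : X) :
    c • v = v ∧ ∀ i, y i • v = v := by
  have hfix : ∀ (f : X) (j : ℕ), y j • f = f → c • f = f ∧ ∀ i, y i • f = f := fun f j hj =>
    fix_all hm h hn (Or.inl hclo) hj
  by_cases h0 : y 0 • v = v
  · exact hfix v 0 h0
  · exfalso
    obtain ⟨α, β, v1, v2, hy, hc, σ, hσ⟩ := exists_comp hm hfix h0
    have hsc : ∀ i, s i = s (i + 1) := no_mixed hm h hn hclo hs hy hc v1 v2 hσ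
    have key := signs hm h hn (Or.inl hclo) hy hc v1 v2 hσ
    obtain ⟨i, hi⟩ := hex
    have hσc : ∀ j, σ j = σ 0 := by
      intro j
      induction j with
      | zero => rfl
      | succ j ih => rw [← (key j).mp (hsc j), ih]
    rcases hb : σ 0 with _ | _
    · have h1 : ∀ j, Up (X := Xᵒᵈ) β α (y j) := fun j v w1 w2 =>
        (hσ j).2 ((hσc j).trans hb) v w2 w1
      exact no_strict (X := Xᵒᵈ) hm.dual h.dual hn hclo hsc (fun j => (hy j).dual)
        (v0 := v) v2 v1 h1 i hi.dual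
    · exact no_strict hm h hn hclo hsc hy v1 v2
        (fun j => (hσ j).1 ((hσc j).trans hb)) i hi

end comp

end Pool.Agent.TH744.Tree
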