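import Pool.Agent.TH744.Tree.Closed
import Pool.Agent.TH744.Chain.Data

set_option autoImplicit false
set_option linter.unusedSectionVars false

/-!
# From the Wirtinger relations of a chain link to normalised sequences
-/

namespace Pool.Agent.TH744.Tree

open Pool.Agent.TH744.LS (Mono inv_fix)
open Pool.Agent.TH744.Chain (Pair Mel Clo Hf Hf_apply Hf_inv_apply del Lf Rf tw nor pair_left
  pair_right left_true left_false right_true right_false unhalf_eq)

variable {G : Type*} [Group G] {c a b b' : G} {σ σ' : Bool}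

/-- Three consecutive normalised meridians with a relation for the middle one. -/
structure Tri (R : G → G → Prop) (σ σ' : Bool) (c a b b' : G) : Prop where
  p1 : Pair σ c a b
  p2 : Pair σ' c b b'
  rel : R b (Mel σ σ' c a b')

/-- Relations that are stable under inversion and conjugation. -/
structure Stab (R : G → G → Prop) : Prop where
  inv : ∀ {b M : G}, R b M → R b⁻¹ M⁻¹
  conj : ∀ {b M : G}, R b M → ∀ g : G, R (g * b * g⁻¹) (g * M * g⁻¹)

variable {R : G → G → Prop}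

theorem Tri.conj (hR : Stab R) (h : Tri R σ σ' c a b b') {g : G} (hg : Commute g c) :
    Tri R σ σ' c (g * a * g⁻¹) (g * b * g⁻¹) (g * b' * g⁻¹) := by
  refine ⟨h.p1.conj hg, h.p2.conj hg, ?_⟩
  have hc : c⁻¹ = g * c⁻¹ * g⁻¹ := by rw [hg.inv_right.eq]; group
  have e : Mel σ σ' c (g * a * g⁻¹) (g * b' * g⁻¹) = g * Mel σ σ' c a b' * g⁻¹ := by
    cases σ <;> cases σ'
    · show g * a * g⁻¹ * c⁻¹ * (g * b' * g⁻¹) = g * (a * c⁻¹ * b') * g⁻¹
      nth_rewrite 1 [hc]; group
    · show g * b' * g⁻¹ * (g * a * g⁻¹)⁻¹ = g * (b' * a⁻¹) * g⁻¹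
      group
    · show (g * a * g⁻¹)⁻¹ * (g * b' * g⁻¹) = g * (a⁻¹ * b') * g⁻¹
      group
    · show g * b' * g⁻¹ * c⁻¹ * (g * a * g⁻¹) = g * (b' * c⁻¹ * a) * g⁻¹
      nth_rewrite 1 [hc]; group
  rw [e]
  exact hR.conj h.rel g

theorem Tri.half (hR : Stab R) (h : Tri R σ σ' c a b b') :
    Tri R σ σ' c (c * a⁻¹) (c * b⁻¹) (c * b'⁻¹) := by
  refine ⟨h.p1.half, h.p2.half, ?_⟩
  have key : ∃ g, Mel σ σ' c (c * a⁻¹) (c * b'⁻¹) = g * (Mel σ σ' c a b')⁻¹ * g⁻¹ ∧
      c * b⁻¹ = g * b⁻¹ * g⁻¹ := by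
    have p1 := h.p1
    have p2 := h.p2
    cases σ <;> cases σ'
    · refine ⟨b', ?_, ?_⟩
      · show c * a⁻¹ * c⁻¹ * (c * b'⁻¹) = b' * (a * c⁻¹ * b')⁻¹ * b'⁻¹
        group
      · rw [show c = b' * b⁻¹ * b'⁻¹ * b from p2]; group
    · refine ⟨c * b'⁻¹, ?_, ?_⟩
      · show c * b'⁻¹ * (c * a⁻¹)⁻¹ = c * b'⁻¹ * (b' * a⁻¹)⁻¹ * (c * b'⁻¹)⁻¹
        group
      · have h1 : b * b'⁻¹ * b⁻¹ * b' * c⁻¹ = 1 := by
          rw [← show c = b * b'⁻¹ * b⁻¹ * b' from p2]; group
        calc c * b⁻¹ = c * b⁻¹ * (b * b'⁻¹ * b⁻¹ * b' * c⁻¹) := by rw [h1, mul_one]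
          _ = _ := by group
    · refine ⟨a, ?_, ?_⟩
      · show (c * a⁻¹)⁻¹ * (c * b'⁻¹) = a * (a⁻¹ * b')⁻¹ * a⁻¹
        group
      · rw [show c = a * b⁻¹ * a⁻¹ * b from p1]; group
    · refine ⟨a, ?_, ?_⟩
      · show c * b'⁻¹ * c⁻¹ * (c * a⁻¹) = a * (b' * c⁻¹ * a)⁻¹ * a⁻¹
        group
      · rw [show c = a * b⁻¹ * a⁻¹ * b from p1]; group
  obtain ⟨g, e1, e2⟩ := key
  rw [e1, e2]
  exact hR.conj (hR.inv h.rel) g

theorem Tri.unhalf (hR : Stab R) (h : Tri R σ σ' c a b b') :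
    Tri R σ σ' c (a⁻¹ * c) (b⁻¹ * c) (b'⁻¹ * c) := by
  rw [unhalf_eq a, unhalf_eq b, unhalf_eq b']
  exact (h.half hR).conj hR (Commute.refl c).inv_left

theorem Tri.pow (hR : Stab R) (h : Tri R σ σ' c a b b') (u : ℤ) :
    Tri R σ σ' c ((Hf c ^ u) a) ((Hf c ^ u) b) ((Hf c ^ u) b') := by
  induction u using Int.induction_on with
  | zero => exact h
  | succ n ih =>
    have e : ∀ z : G, (Hf c ^ ((n : ℤ) + 1)) z = c * ((Hf c ^ (n : ℤ)) z)⁻¹ := by
      intro z; rw [add_comm, zpow_add, zpow_one, Equiv.Perm.mul_apply, Hf_apply]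
    rw [e, e, e]; exact ih.half hR
  | pred n ih =>
    have e : ∀ z : G, (Hf c ^ (-(n : ℤ) - 1)) z = ((Hf c ^ (-(n : ℤ))) z)⁻¹ * c := by
      intro z
      rw [sub_eq_add_neg, add_comm, zpow_add, zpow_neg_one, Equiv.Perm.mul_apply, Hf_inv_apply]
    rw [e, e, e]; exact ih.unhalf hR

theorem tri_base {s s' t t' : Bool} (h : Pair t c a b) (h' : Pair t' c b b')
    (hr : R b (if s' then (Lf t c a * Rf t' c b')⁻¹ else Lf t c a * Rf t' c b')) :
    Tri R s s' c ((Hf c ^ (-del s t)) a) b ((Hf c ^ del s' t') b') := by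
  refine ⟨pair_left h, pair_right h', ?_⟩
  cases s'
  · have e : Mel s false c ((Hf c ^ (-del s t)) a) ((Hf c ^ del false t') b')
        = Lf t c a * Rf t' c b' := by
      rw [← right_false]
      cases s
      · rw [← left_false]
        show _ * c⁻¹ * _ = _
        group
      · have h1 : Lf t c a = ((Hf c ^ (-del true t)) a)⁻¹ * c := by
          rw [← inv_inv (Lf t c a), ← left_true]; group
        rw [h1]
        show _⁻¹ * _ = _
        group
    rw [e]
    simpa using hr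
  · have e : Mel s true c ((Hf c ^ (-del s t)) a) ((Hf c ^ del true t') b')
        = (Lf t c a * Rf t' c b')⁻¹ := by
      rw [mul_inv_rev, ← right_true]
      cases s
      · rw [← left_false]; rfl
      · rw [← left_true]
        show _ * c⁻¹ * _ = _
        group
    rw [e]
    simpa using hr

/-- The Wirtinger relations of a chain link with `n` components: `o i`, `m i` are the meridians
of the outer and the inner arc of component `i`, and `e i` is `true` if the clasp of the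
components `i` and `i + 1` is positive. -/
structure Link (n : ℕ) (o m : ℕ → G) (e : ℕ → Bool) : Prop where
  out : ∀ i, if e i then (o i)⁻¹ * m (i + 1) * o i * (o (i + 1))⁻¹ = 1
    else o (i + 1) * o i * (o (i + 1))⁻¹ * (m i)⁻¹ = 1
  inn : ∀ i, if e i then (m (i + 1))⁻¹ * o i * m (i + 1) * (m i)⁻¹ = 1
    else m i * m (i + 1) * (m i)⁻¹ * (o (i + 1))⁻¹ = 1
  po : ∀ i, o (i + n) = o i
  pe : ∀ i, e (i + n) = e i

/-- The longitude of component `i + 1`. -/
def lon (o m : ℕ → G) (e : ℕ → Bool) (i : ℕ) : G :=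
  (if e (i + 1) then m (i + 2) else (o (i + 2))⁻¹) * (if e i then o i else (m i)⁻¹)

variable {n : ℕ} {o m : ℕ → G} {e s : ℕ → Bool}

theorem Link.c_const (h : Link n o m e) (i : ℕ) : (o i)⁻¹ * m i = (o 0)⁻¹ * m 0 := by
  induction i with
  | zero => rfl
  | succ i ih =>
    rw [← ih]
    have h1 := h.out i
    have h2 := h.inn i
    cases he : e i
    · rw [he] at h1 h2
      simp only [Bool.false_eq_true, if_false] at h1 h2
      have e1 : m i = o (i + 1) * o i * (o (i + 1))⁻¹ := (mul_inv_eq_one.mp h1).symm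
      have e2 : m (i + 1) = (m i)⁻¹ * o (i + 1) * m i := by
        have : o (i + 1) = m i * m (i + 1) * (m i)⁻¹ := (mul_inv_eq_one.mp h2).symm
        rw [this]; group
      have e3 : (m i)⁻¹ = o (i + 1) * (o i)⁻¹ * (o (i + 1))⁻¹ := by rw [e1]; group
      rw [e2]
      nth_rewrite 1 [e3]
      group
    · rw [he] at h1 h2
      simp only [if_true] at h1 h2
      have e1 : m (i + 1) = o i * o (i + 1) * (o i)⁻¹ := by
        have : o (i + 1) = (o i)⁻¹ * m (i + 1) * o i := (mul_inv_eq_one.mp h1).symm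
        rw [this]; group
      have e2 : m i = (m (i + 1))⁻¹ * o i * m (i + 1) := (mul_inv_eq_one.mp h2).symm
      have e3 : (m (i + 1))⁻¹ = o i * (o (i + 1))⁻¹ * (o i)⁻¹ := by rw [e1]; group
      rw [e2, e3]
      group

/-- The loop around both strands of a component. -/
def cc (o m : ℕ → G) : G := (o 0)⁻¹ * m 0

theorem Link.m_eq (h : Link n o m e) (i : ℕ) : m i = o i * cc o m := by
  unfold cc; rw [← h.c_const i]; group

theorem Link.pair (h : Link n o m e) (i : ℕ) :
    Pair (!e i) (cc o m) (o i)⁻¹ (o (i + 1))⁻¹ := by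
  have hcc : ∀ i, (o i)⁻¹ * m i = cc o m := h.c_const
  have h1 := h.out i
  cases he : e i
  · rw [he] at h1
    have e1 : m i = o (i + 1) * o i * (o (i + 1))⁻¹ := (mul_inv_eq_one.mp h1).symm
    show cc o m = (o i)⁻¹ * (o (i + 1))⁻¹⁻¹ * (o i)⁻¹⁻¹ * (o (i + 1))⁻¹
    rw [← hcc i, e1]; group
  · rw [he] at h1
    simp only [if_true] at h1
    have e1 : m (i + 1) = o i * o (i + 1) * (o i)⁻¹ := by
      have : o (i + 1) = (o i)⁻¹ * m (i + 1) * o i := (mul_inv_eq_one.mp h1).symm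
      rw [this]; group
    show cc o m = (o (i + 1))⁻¹ * (o i)⁻¹⁻¹ * (o (i + 1))⁻¹⁻¹ * (o i)⁻¹
    rw [← hcc (i + 1), e1]; group

theorem Link.lr (h : Link n o m e) (i : ℕ) :
    Lf (!e i) (cc o m) (o i)⁻¹ * Rf (!e (i + 1)) (cc o m) (o (i + 2))⁻¹ = (lon o m e i)⁻¹ := by
  have hm := h.m_eq
  unfold lon
  generalize cc o m = c at *
  cases he : e i <;> cases he' : e (i + 1)
  · show (o i)⁻¹⁻¹ * c * (o (i + 2))⁻¹⁻¹ = ((o (i + 2))⁻¹ * (m i)⁻¹)⁻¹
    rw [hm i]; group
  · show (o i)⁻¹⁻¹ * c * (c⁻¹ * (o (i + 2))⁻¹) = (m (i + 2) * (m i)⁻¹)⁻¹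
    rw [hm i, hm (i + 2)]; group
  · show (o i)⁻¹ * (o (i + 2))⁻¹⁻¹ = ((o (i + 2))⁻¹ * o i)⁻¹
    group
  · show (o i)⁻¹ * (c⁻¹ * (o (i + 2))⁻¹) = (m (i + 2) * o i)⁻¹
    rw [hm (i + 2)]; group

/-- The normalised meridians. -/
def ny (o m : ℕ → G) (e s : ℕ → Bool) : ℕ → G :=
  nor (cc o m) s (fun i => !e i) (fun i => (o i)⁻¹)

/-- The twist: number of negative signs minus number of positive clasps, over the first `i`
components. -/
def tws (e s : ℕ → Bool) : ℕ → ℤ := tw s (fun i => !e i)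

theorem Link.npair (h : Link n o m e) (i : ℕ) :
    Pair (s i) (cc o m) (ny o m e s i) (ny o m e s (i + 1)) := by
  have h1 := (pair_right (s := s i) (h.pair i)).pow (tw s (fun i => !e i) i)
  rw [← Equiv.Perm.mul_apply, ← zpow_add] at h1
  exact h1

theorem Link.nrel (hR : Stab R) (h : Link n o m e) (i : ℕ)
    (hr : R (o (i + 1))⁻¹ (if s (i + 1) then lon o m e i else (lon o m e i)⁻¹)) :
    R (ny o m e s (i + 1)) (Mel (s i) (s (i + 1)) (cc o m) (ny o m e s i)
      (ny o m e s (i + 2))) := by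
  have hr' : R (o (i + 1))⁻¹ (if s (i + 1) then
      (Lf (!e i) (cc o m) (o i)⁻¹ * Rf (!e (i + 1)) (cc o m) (o (i + 2))⁻¹)⁻¹ else
      Lf (!e i) (cc o m) (o i)⁻¹ * Rf (!e (i + 1)) (cc o m) (o (i + 2))⁻¹) := by
    rw [h.lr, inv_inv]; exact hr
  have h1 := (tri_base (s := s i) (s' := s (i + 1)) (h.pair i) (h.pair (i + 1)) hr').pow hR
    (tw s (fun i => !e i) (i + 1))
  rw [← Equiv.Perm.mul_apply, ← zpow_add, ← Equiv.Perm.mul_apply, ← zpow_add] at h1
  have e1 : tw s (fun i => !e i) (i + 1) + -del (s i) (!e i) = tw s (fun i => !e i) i := by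
    show tw s (fun i => !e i) i + del (s i) (!e i) + -del (s i) (!e i) = tw s (fun i => !e i) i
    ring
  rw [e1] at h1
  exact h1.rel

theorem Link.tw_add (h : Link n o m e) (ps : ∀ i, s (i + n) = s i) (i : ℕ) :
    tws e s (i + n) = tws e s i + tws e s n := by
  induction i with
  | zero => simp [tws, tw]
  | succ i ih =>
    have e1 : i + 1 + n = i + n + 1 := by ring
    rw [e1]
    show tws e s (i + n) + del (s (i + n)) (!e (i + n)) = tws e s i + del (s i) (!e i) + tws e s n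
    rw [ih, h.pe, ps]; ring

theorem Link.ny_add (h : Link n o m e) (ps : ∀ i, s (i + n) = s i) (i : ℕ) :
    ny o m e s (i + n) = (Hf (cc o m) ^ tws e s n) (ny o m e s i) := by
  show (Hf (cc o m) ^ tws e s (i + n)) (o (i + n))⁻¹ = _
  rw [h.tw_add ps, h.po, add_comm, zpow_add, Equiv.Perm.mul_apply]
  rfl

theorem hf_fix {X : Type*} [LinearOrder X] [MulAction G X] {z : G} {v : X} (hc : c • v = v) (hz : z • v = v)
    (u : ℤ) : (Hf c ^ u) z • v = v := by
  induction u using Int.induction_on with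
  | zero => exact hz
  | succ n ih =>
    have e : (Hf c ^ ((n : ℤ) + 1)) z = c * ((Hf c ^ (n : ℤ)) z)⁻¹ := by
      rw [add_comm, zpow_add, zpow_one, Equiv.Perm.mul_apply, Hf_apply]
    rw [e, mul_smul, inv_fix ih, hc]
  | pred n ih =>
    have e : (Hf c ^ (-(n : ℤ) - 1)) z = ((Hf c ^ (-(n : ℤ))) z)⁻¹ * c := by
      rw [sub_eq_add_neg, add_comm, zpow_add, zpow_neg_one, Equiv.Perm.mul_apply, Hf_inv_apply]
    rw [e, mul_smul, hc, inv_fix ih]

theorem o_fix {X : Type*} [LinearOrder X] [MulAction G X] {v : X} (hc : cc o m • v = v) {i : ℕ}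
    (hz : ny o m e s i • v = v) : o i • v = v := by
  have h1 : (Hf (cc o m) ^ (-tws e s i)) (ny o m e s i) • v = v := hf_fix hc hz _
  have h2 : (Hf (cc o m) ^ (-tws e s i)) (ny o m e s i) = (o i)⁻¹ := by
    show (Hf (cc o m) ^ (-tws e s i)) ((Hf (cc o m) ^ tws e s i) (o i)⁻¹) = (o i)⁻¹
    rw [← Equiv.Perm.mul_apply, ← zpow_add, neg_add_cancel, zpow_zero, Equiv.Perm.one_apply]
  rw [h2] at h1
  have := inv_fix h1
  rwa [inv_inv] at this

/-! ### Capped cusps -/

section cap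
variable (X : Type*) [LinearOrder X] [MulAction G X]

/-- A cusp with meridian `x` and longitude `l` whose slopes are at least `2` (sign `true`) or at
most `-2` (sign `false`), in the action on `X`. -/
def Cp (σ : Bool) (x l : G) : Prop := Dm X x⁻¹ (if σ then l else l⁻¹)

/-- The same with strict inequalities. -/
def CpS (σ : Bool) (x l : G) : Prop := DmS X x⁻¹ (if σ then l else l⁻¹)

variable {X}

theorem stab_dm (hm : Mono G X) : Stab (Dm X : G → G → Prop) :=
  ⟨fun h => h.inv hm, fun h g => h.conj hm g⟩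

theorem stab_dms (hm : Mono G X) : Stab (DmS X : G → G → Prop) :=
  ⟨fun h => h.inv hm, fun h g => h.conj hm g⟩

end cap

theorem Link.lon_add (h : Link n o m e) (i : ℕ) : lon o m e (i + n) = lon o m e i := by
  unfold lon
  have e1 : i + n + 1 = i + 1 + n := by ring
  have e2 : i + n + 2 = i + 2 + n := by ring
  rw [h.m_eq (i + n + 2), h.m_eq (i + n), h.m_eq (i + 2), h.m_eq i, e1, e2, h.pe, h.po, h.po, h.pe]

theorem Link.sq {X : Type*} [LinearOrder X] [MulAction G X] (hm : Mono G X) (h : Link n o m e)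
    (hn : 1 ≤ n) (ps : ∀ i, s (i + n) = s i)
    (hcap : ∀ i < n, Cp X (s (i + 1)) (o (i + 1)) (lon o m e i)) :
    Sq X (ny o m e s) (cc o m) s := by
  refine ⟨fun i => h.npair i, fun i => h.nrel (stab_dm hm) i ?_⟩
  have key : ∀ k i, i < n → Cp X (s (i + k * n + 1)) (o (i + k * n + 1)) (lon o m e (i + k * n)) := by
    intro k
    induction k with
    | zero => intro i hi; simpa using hcap i hi
    | succ k ih =>
      intro i hi
      have e1 : i + (k + 1) * n + 1 = (i + k * n + 1) + n := by ring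
      have e2 : i + (k + 1) * n = (i + k * n) + n := by ring
      rw [e1, e2, ps, h.po, h.lon_add]
      exact ih i hi
  have h1 := key (i / n) (i % n) (Nat.mod_lt _ (by omega))
  have e1 : i % n + i / n * n = i := Nat.mod_add_div' i n
  rw [e1] at h1
  exact h1

/-- All cusps capped: the action is trivial. -/
theorem Link.closed {X : Type*} [CompleteLinearOrder X] [MulAction G X] (hm : Mono G X)
    (h : Link n o m e) (hn : 1 ≤ n) (ps : ∀ i, s (i + n) = s i)
    (hcap : ∀ i < n, Cp X (s (i + 1)) (o (i + 1)) (lon o m e i))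
    (htw : (tws e s n = 1 ∨ tws e s n = -1) ∨
      (tws e s n = 0 ∧ ∃ i, CpS X (s (i + 1)) (o (i + 1)) (lon o m e i))) (v : X) :
    cc o m • v = v ∧ ∀ i, o i • v = v := by
  have hsq := h.sq hm hn ps hcap
  have key : cc o m • v = v ∧ ∀ i, ny o m e s i • v = v := by
    rcases htw with ht | ⟨ht, i, hi⟩
    · refine trivial_half hm hsq hn ?_ ps v
      rcases ht with ht | ht
      · left; intro i; rw [h.ny_add ps, ht, zpow_one, Hf_apply]
      · right; intro i; rw [h.ny_add ps, ht, zpow_neg_one, Hf_inv_apply]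
    · refine trivial_zero hm hsq hn (fun i => ?_) ps ⟨i, h.nrel (stab_dms hm) i hi⟩ v
      rw [h.ny_add ps, ht, zpow_zero, Equiv.Perm.one_apply]
  exact ⟨key.1, fun i => o_fix key.1 (key.2 i)⟩

/-- All cusps but the first capped, no twist: a fixed point of the meridian of the first cusp is
fixed by all meridians. -/
theorem Link.openfix {X : Type*} [LinearOrder X] [MulAction G X] (hm : Mono G X)
    (h : Link n o m e) (hn : 1 ≤ n) (ps : ∀ i, s (i + n) = s i)
    (hcap : ∀ i, i + 1 < n → Cp X (s (i + 1)) (o (i + 1)) (lon o m e i))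
    (htw : tws e s n = 0) {v : X} (hv : o 0 • v = v) :
    cc o m • v = v ∧ ∀ i, o i • v = v := by
  have h0 : ny o m e s 0 • v = v := inv_fix hv
  have key := open_fix (s := s) hm (fun i => h.npair i) hn
    (fun k hk => h.nrel (stab_dm hm) k (hcap k hk))
    (fun i => by rw [h.ny_add ps, htw, zpow_zero, Equiv.Perm.one_apply]) h0
  exact ⟨key.1, fun i => o_fix key.1 (key.2 i)⟩

end Pool.Agent.TH744.Tree
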