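import Pool.Agent.TH744.Chain.Zero

set_option autoImplicit false
set_option linter.unusedSectionVars false

/-!
# Chain links whose cusps are capped by arbitrary dominating pairs

The surgery relation `M ^ Q = b ^ P` with `2 Q ≤ P` is replaced by its dynamical consequence
`Dm`: where `b` moves a point up, `M` moves it up at least as far as `b ^ 2`, and dually.
-/

namespace Pool.Agent.TH744.Tree

open Pool.Agent.TH744.LS (Mono inv_fix)
open Pool.Agent.TH744.Chain

section dm
variable {G : Type*} (X : Type*) [Group G] [LinearOrder X] [MulAction G X]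

/-- `M` dominates the square of `b`. -/
structure Dm (b M : G) : Prop where
  up : ∀ v : X, v ≤ b • v → b • b • v ≤ M • v
  dn : ∀ v : X, b • v ≤ v → M • v ≤ b • b • v

/-- `M` strictly dominates the square of `b`. -/
structure DmS (b M : G) : Prop where
  up : ∀ v : X, v < b • v → b • b • v < M • v
  dn : ∀ v : X, b • v < v → M • v < b • b • v

variable {X}

theorem Dm.dual {b M : G} (h : Dm X b M) : Dm Xᵒᵈ b M := ⟨fun v hv => h.dn v hv, fun v hv => h.up v hv⟩

theorem DmS.dual {b M : G} (h : DmS X b M) : DmS Xᵒᵈ b M :=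
  ⟨fun v hv => h.dn v hv, fun v hv => h.up v hv⟩

theorem Dm.up1 (hm : Mono G X) {b M : G} (h : Dm X b M) {v : X} (hv : v ≤ b • v) :
    b • v ≤ M • v := ((hm.le b).mpr hv).trans (h.up v hv)

theorem Dm.fix {b M : G} (h : Dm X b M) {v : X} (hv : b • v = v) : M • v = v := by
  have h1 := h.up v hv.ge
  have h2 := h.dn v hv.le
  rw [hv, hv] at h1 h2
  exact le_antisymm h2 h1

theorem Dm.inv (hm : Mono G X) {b M : G} (h : Dm X b M) : Dm X b⁻¹ M⁻¹ := by
  constructor
  · intro v hv
    rw [hm.le_inv]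
    have h1 : b • b⁻¹ • b⁻¹ • v ≤ b⁻¹ • b⁻¹ • v := by
      rw [smul_inv_smul, hm.le_inv]
      rw [hm.le_inv] at hv; rw [smul_inv_smul]
      rwa [hm.le_inv]
    have h2 := h.dn _ h1
    rwa [smul_inv_smul, smul_inv_smul] at h2
  · intro v hv
    rw [hm.inv_le]
    have h1 : b⁻¹ • b⁻¹ • v ≤ b • b⁻¹ • b⁻¹ • v := by
      rw [smul_inv_smul, hm.inv_le, smul_inv_smul]
      exact hv
    have h2 := h.up _ h1
    rwa [smul_inv_smul, smul_inv_smul] at h2

theorem DmS.inv (hm : Mono G X) {b M : G} (h : DmS X b M) : DmS X b⁻¹ M⁻¹ := by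
  constructor
  · intro v hv
    rw [← hm.lt M, smul_inv_smul]
    have h1 : b • b⁻¹ • b⁻¹ • v < b⁻¹ • b⁻¹ • v := by
      rw [smul_inv_smul]; exact (hm.lt b⁻¹).mpr hv
    have h2 := h.dn _ h1
    rwa [smul_inv_smul, smul_inv_smul] at h2
  · intro v hv
    rw [hm.inv_lt]
    have h1 : b⁻¹ • b⁻¹ • v < b • b⁻¹ • b⁻¹ • v := by
      rw [smul_inv_smul]; exact (hm.lt b⁻¹).mpr hv
    have h2 := h.up _ h1
    rwa [smul_inv_smul, smul_inv_smul] at h2

theorem Dm.conj (hm : Mono G X) {b M : G} (h : Dm X b M) (g : G) :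
    Dm X (g * b * g⁻¹) (g * M * g⁻¹) := by
  constructor
  · intro v hv
    have e : (g * b * g⁻¹) • (g * b * g⁻¹) • v = g • b • b • g⁻¹ • v := by
      simp only [mul_smul, inv_smul_smul]
    have e' : (g * M * g⁻¹) • v = g • M • g⁻¹ • v := by simp only [mul_smul]
    rw [e, e', hm.le]
    apply h.up
    rw [mul_smul, mul_smul] at hv
    rwa [← hm.le g, smul_inv_smul]
  · intro v hv
    have e : (g * b * g⁻¹) • (g * b * g⁻¹) • v = g • b • b • g⁻¹ • v := by
      simp only [mul_smul, inv_smul_smul]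
    have e' : (g * M * g⁻¹) • v = g • M • g⁻¹ • v := by simp only [mul_smul]
    rw [e, e', hm.le]
    apply h.dn
    rw [mul_smul, mul_smul] at hv
    rwa [← hm.le g, smul_inv_smul]

theorem DmS.conj (hm : Mono G X) {b M : G} (h : DmS X b M) (g : G) :
    DmS X (g * b * g⁻¹) (g * M * g⁻¹) := by
  constructor
  · intro v hv
    have e : (g * b * g⁻¹) • (g * b * g⁻¹) • v = g • b • b • g⁻¹ • v := by
      simp only [mul_smul, inv_smul_smul]
    have e' : (g * M * g⁻¹) • v = g • M • g⁻¹ • v := by simp only [mul_smul]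
    rw [e, e', hm.lt]
    apply h.up
    rw [mul_smul, mul_smul] at hv
    rwa [← hm.lt g, smul_inv_smul]
  · intro v hv
    have e : (g * b * g⁻¹) • (g * b * g⁻¹) • v = g • b • b • g⁻¹ • v := by
      simp only [mul_smul, inv_smul_smul]
    have e' : (g * M * g⁻¹) • v = g • M • g⁻¹ • v := by simp only [mul_smul]
    rw [e, e', hm.lt]
    apply h.dn
    rw [mul_smul, mul_smul] at hv
    rwa [← hm.lt g, smul_inv_smul]

end dm

section act
variable {G X : Type*} [Group G] [LinearOrder X] [MulAction G X]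
variable {c a b b' : G} {f : X}

theorem stepA (hm : Mono G X) {σ σ' : Bool} (h : Pair σ c a b) (h' : Pair σ' c b b')
    (hd : Dm X b (Mel σ σ' c a b')) (H : CA σ f a b) : CA σ' f b b' := by
  have hc := mel_comm h h'
  have hbi : b⁻¹ • f < f := by rw [hm.inv_lt]; exact H.c0
  have hbi' : b⁻¹ • f ≤ b • b⁻¹ • f := by rw [smul_inv_smul]; exact hbi.le
  have hai : a⁻¹ • f ≤ f := by rw [hm.inv_le]; exact H.c1
  have hba : a⁻¹ • f ≤ b • a⁻¹ • f := hai.trans H.c2
  have fin : f ≤ b' • b⁻¹ • f → (σ' = false → b'⁻¹ • f ≤ b • b'⁻¹ • f) → CA σ' f b b' := by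
    intro e2 e3
    exact ⟨H.c0.le, e2, lt_of_le_of_lt e2 ((hm.lt b').mpr hbi), e3⟩
  cases σ <;> cases σ'
  · -- false, false
    obtain ⟨e, -⟩ := mel_ff h h'
    generalize Mel false false c a b' = M at e hc hd
    have hp1 : a • b⁻¹ • f ≤ f := by
      rw [← hm.le_inv (g := a), hm.inv_le]; exact H.c2
    have hp2 : f ≤ b • a • b⁻¹ • f := by
      rw [← hm.inv_le]; exact H.c3 rfl
    refine fin ?_ fun _ => ?_
    · have h1 : b • f ≤ M • b⁻¹ • f := by
        have := hd.up _ hbi'
        rwa [smul_inv_smul] at this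
      rw [e, mul_smul, mul_smul, mul_smul]
      have h2 : f ≤ b⁻¹ • M • b⁻¹ • f := by rw [hm.le_inv]; exact h1
      exact H.c2.trans ((hm.le b).mpr ((hm.le a⁻¹).mpr h2))
    · have e' : b'⁻¹ = M⁻¹ * b * a * b⁻¹ := by rw [e]; group
      have hc' : b * M⁻¹ = M⁻¹ * b := hc.inv_right.eq
      rw [e', mul_smul, mul_smul, mul_smul, ← mul_smul b M⁻¹, hc', mul_smul, hm.le, hm.le]
      exact hp1.trans hp2
  · -- false, true
    obtain ⟨e, -⟩ := mel_ft h h'
    generalize Mel false true c a b' = M at e hc hd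
    refine fin ?_ (by simp)
    have h1 : f ≤ M • b⁻¹ • f := by
      have := hd.up1 hm hbi'
      rwa [smul_inv_smul] at this
    rw [e, mul_smul]
    exact h1.trans ((hm.le M).mpr (H.c3 rfl))
  · -- true, false
    obtain ⟨e, -⟩ := mel_tf h h'
    generalize Mel true false c a b' = M at e hc hd
    refine fin ?_ fun _ => ?_
    · have h1 : f ≤ M • b⁻¹ • f := by
        have := hd.up1 hm hbi'
        rwa [smul_inv_smul] at this
      rw [e, mul_smul]
      exact H.c1.trans ((hm.le a).mpr h1)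
    · have e' : b'⁻¹ = M⁻¹ * a⁻¹ := by rw [e]; group
      have hc' : b * M⁻¹ = M⁻¹ * b := hc.inv_right.eq
      rw [e', mul_smul, ← mul_smul b M⁻¹, hc', mul_smul, hm.le]
      exact hba
  · -- true, true
    obtain ⟨e, -⟩ := mel_tt h h'
    generalize Mel true true c a b' = M at e hc hd
    refine fin ?_ (by simp)
    have h1 := hd.up _ hba
    have hc' : M * b⁻¹ = b⁻¹ * M := hc.symm.inv_right.eq
    have e' : b' * b⁻¹ = b⁻¹ * M * a⁻¹ := by rw [e, ← hc']; group
    rw [← mul_smul, e', mul_smul, mul_smul, hm.le_inv]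
    have h2 : b • f ≤ b • b • a⁻¹ • f := (hm.le b).mpr H.c2
    exact h2.trans h1

theorem stepB (hm : Mono G X) {σ σ' : Bool} (h : Pair σ c a b) (h' : Pair σ' c b b')
    (hd : Dm X b (Mel σ σ' c a b')) (H : CB σ f a b) : CB σ' f b b' := by
  have hc := mel_comm h h'
  have fin : b • f ≤ b' • f → (σ' = true → b' • f ≤ b • b' • f) → CB σ' f b b' := by
    intro e2 e3
    exact ⟨H.c0.le, e2, lt_of_lt_of_le H.c0 e2, e3⟩
  have hfb : f ≤ a⁻¹ • b • f := by rw [hm.le_inv]; exact H.c2
  cases σ <;> cases σ'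
  · -- false, false
    obtain ⟨e, -⟩ := mel_ff h h'
    generalize Mel false false c a b' = M at e hc hd
    refine fin ?_ (by simp)
    have h1 := hd.up _ H.c0.le
    have h2 : b • f ≤ b⁻¹ • M • f := by rw [hm.le_inv]; exact h1
    rw [e, mul_smul, mul_smul, mul_smul, hm.le, hm.le_inv]
    exact H.c2.trans h2
  · -- false, true
    obtain ⟨e, -⟩ := mel_ft h h'
    generalize Mel false true c a b' = M at e hc hd
    have h0 : b • f ≤ b • a • f := (hm.le b).mpr H.c1
    have h1 : a • f ≤ b • a • f := H.c2.trans h0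
    have h2 := hd.up1 hm h1
    refine fin ?_ fun _ => ?_
    · rw [e, mul_smul]; exact h0.trans h2
    · rw [e, mul_smul, ← mul_smul b M, hc.eq, mul_smul, hm.le]; exact h1
  · -- true, false
    obtain ⟨e, -⟩ := mel_tf h h'
    generalize Mel true false c a b' = M at e hc hd
    refine fin ?_ (by simp)
    have h1 := hd.up1 hm H.c0.le
    rw [e, mul_smul]
    exact (H.c3 rfl).trans ((hm.le a).mpr h1)
  · -- true, true
    obtain ⟨e, -⟩ := mel_tt h h'
    generalize Mel true true c a b' = M at e hc hd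
    have hp1 : b⁻¹ • a⁻¹ • b • f ≤ f := by
      rw [hm.inv_le, hm.inv_le]; exact H.c3 rfl
    have hp2 : b⁻¹ • a⁻¹ • b • f ≤ b • b⁻¹ • a⁻¹ • b • f := by
      rw [smul_inv_smul]; exact hp1.trans hfb
    have h1 := hd.up _ hp2
    rw [smul_inv_smul] at h1
    refine fin ?_ fun _ => ?_
    · rw [e, mul_smul, mul_smul, mul_smul]
      exact ((hm.le b).mpr hfb).trans h1
    · rw [e, mul_smul, mul_smul, mul_smul, ← mul_smul b M, hc.eq, mul_smul, hm.le]
      exact hp2

end act

section
variable {G X : Type*} [Group G] [LinearOrder X] [MulAction G X]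

/-- The dominating pair of the component `i + 1`. -/
abbrev DmAt (X : Type*) [LinearOrder X] [MulAction G X] (y : ℕ → G) (c : G) (s : ℕ → Bool)
    (i : ℕ) : Prop := Dm X (y (i + 1)) (Mel (s i) (s (i + 1)) c (y i) (y (i + 2)))

/-- The meridians `y i` along the chain and the signs `s i` of the cusps. -/
structure Sq (X : Type*) [LinearOrder X] [MulAction G X] (y : ℕ → G) (c : G) (s : ℕ → Bool) :
    Prop where
  pair : ∀ i, Pair (s i) c (y i) (y (i + 1))
  dm : ∀ i, DmAt X y c s i

variable {y : ℕ → G} {c : G} {s : ℕ → Bool}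

theorem Sq.dual (h : Sq X y c s) : Sq Xᵒᵈ y c s := ⟨h.pair, fun i => (h.dm i).dual⟩

theorem growA (hm : Mono G X) (hp : ∀ i, Pair (s i) c (y i) (y (i + 1))) {f : X} {j : ℕ}
    (H : CA (s j) f (y j) (y (j + 1))) (m : ℕ) (hd : ∀ k < m, DmAt X y c s (j + k)) :
    CA (s (j + m)) f (y (j + m)) (y (j + m + 1)) := by
  induction m with
  | zero => exact H
  | succ m ih =>
    exact stepA hm (hp (j + m)) (hp (j + m + 1)) (hd m (by omega)) (ih fun k hk => hd k (by omega))

theorem growB (hm : Mono G X) (hp : ∀ i, Pair (s i) c (y i) (y (i + 1))) {f : X} {j : ℕ}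
    (H : CB (s j) f (y j) (y (j + 1))) (m : ℕ) (hd : ∀ k < m, DmAt X y c s (j + k)) :
    CB (s (j + m)) f (y (j + m)) (y (j + m + 1)) := by
  induction m with
  | zero => exact H
  | succ m ih =>
    exact stepB hm (hp (j + m)) (hp (j + m + 1)) (hd m (by omega)) (ih fun k hk => hd k (by omega))

/-- At a fixed point of `y 0`, with all cusps but the first one capped and no twist, the next
meridian does not move up. -/
theorem open_not_up (hm : Mono G X) (hp : ∀ i, Pair (s i) c (y i) (y (i + 1))) {n : ℕ}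
    (hn : 1 ≤ n) (hd : ∀ k, k + 1 < n → DmAt X y c s k) (hclo : ∀ i, y (i + n) = y i) {f : X}
    (h0 : y 0 • f = f) (hu : f < y 1 • f) : False := by
  obtain ⟨k, rfl⟩ := Nat.exists_eq_add_of_le' hn
  have e : 0 + k + 1 = 0 + (k + 1) := by ring
  have g0 : f < y (0 + k + 1) • f := by
    rcases hs : s 0 with _ | _
    · have base : CB (s 0) f (y 0) (y (0 + 1)) :=
        ⟨h0.ge, by rw [h0]; exact hu.le, hu, by rw [hs]; simp⟩
      exact (growB hm hp base k fun j hj => by rw [zero_add]; exact hd j (by omega)).c0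
    · have base : CA (s 0) f (y 0) (y (0 + 1)) :=
        ⟨h0.ge, by rw [inv_fix h0]; exact hu.le, hu, by rw [hs]; simp⟩
      exact (growA hm hp base k fun j hj => by rw [zero_add]; exact hd j (by omega)).c0
  rw [e, hclo, h0] at g0
  exact lt_irrefl _ g0

theorem fix_c' (hp : ∀ i, Pair (s i) c (y i) (y (i + 1))) {f : X} {j : ℕ} (hj : y j • f = f)
    (hj1 : y (j + 1) • f = f) : c • f = f := by
  have hji := inv_fix hj
  have hj1i := inv_fix hj1
  have hp := hp j
  rcases hs : s j with _ | _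
  · rw [hs] at hp
    rw [show c = _ from hp, mul_smul, mul_smul, mul_smul, hj, hj1i, hji, hj1]
  · rw [hs] at hp
    rw [show c = _ from hp, mul_smul, mul_smul, mul_smul, hj1, hji, hj1i, hj]

theorem fix_mel {a b b' : G} {σ σ' : Bool} {f : X} (h : Pair σ c a b) (h' : Pair σ' c b b')
    (hd : Dm X b (Mel σ σ' c a b')) (ha : a • f = f) (hb : b • f = f) : b' • f = f := by
  have hM := hd.fix hb
  have hai := inv_fix ha
  have hbi := inv_fix hb
  cases σ <;> cases σ'
  · rw [(mel_ff h h').1, mul_smul, mul_smul, mul_smul, hM, hbi, hai, hb]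
  · rw [(mel_ft h h').1, mul_smul, ha, hM]
  · rw [(mel_tf h h').1, mul_smul, hM, ha]
  · rw [(mel_tt h h').1, mul_smul, mul_smul, mul_smul, hb, hai, hbi, hM]

/-- A fixed point of the meridian of the open cusp is fixed by all meridians. -/
theorem open_fix (hm : Mono G X) (hp : ∀ i, Pair (s i) c (y i) (y (i + 1))) {n : ℕ}
    (hn : 1 ≤ n) (hd : ∀ k, k + 1 < n → DmAt X y c s k) (hclo : ∀ i, y (i + n) = y i) {f : X}
    (h0 : y 0 • f = f) : c • f = f ∧ ∀ i, y i • f = f := by
  have h1 : y 1 • f = f := by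
    rcases lt_trichotomy (y 1 • f) f with h1 | h1 | h1
    · exact (open_not_up (X := Xᵒᵈ) hm.dual hp hn (fun k hk => (hd k hk).dual) hclo
        (f := f) h0 h1).elim
    · exact h1
    · exact (open_not_up hm hp hn hd hclo h0 h1).elim
  refine ⟨fix_c' hp h0 h1, ?_⟩
  have key : ∀ i, i < n → y i • f = f ∧ y (i + 1) • f = f := by
    intro i
    induction i with
    | zero => exact fun _ => ⟨h0, h1⟩
    | succ i ih =>
      intro hi
      have h2 := ih (by omega)
      exact ⟨h2.2, fix_mel (hp i) (hp (i + 1)) (hd i hi) h2.1 h2.2⟩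
  intro i
  have hmod : ∀ m i, y (i + m * n) = y i := by
    intro m
    induction m with
    | zero => intro i; simp
    | succ m ih =>
      intro i
      have : i + (m + 1) * n = (i + m * n) + n := by ring
      rw [this, hclo, ih]
  have e := Nat.mod_add_div' i n
  rw [← e, hmod]
  exact (key _ (Nat.mod_lt _ (by omega))).1

/-- At a fixed point of `y j`, the next meridian does not move up. -/
theorem not_up_of_fix (hm : Mono G X) (h : Sq X y c s) {n : ℕ} (hn : 1 ≤ n)
    (hclo : Clo n y c) {f : X} {j : ℕ} (hj : y j • f = f) (hu : f < y (j + 1) • f) : False := by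
  have hji : (y j)⁻¹ • f = f := inv_fix hj
  have e : j + n + 1 = j + 1 + n := by ring
  have hpair := h.pair j
  obtain ⟨k, rfl⟩ := Nat.exists_eq_add_of_le' hn
  rcases hs : s j with _ | _
  · -- type false: second growth condition
    have base : CB (s j) f (y j) (y (j + 1)) :=
      ⟨hj.ge, by rw [hj]; exact hu.le, hu, by rw [hs]; simp⟩
    have g0 : f < y (j + (k + 1)) • f := (growB hm h.pair base k fun _ _ => h.dm _).c0
    have g1 := (growB hm h.pair base (k + 1) fun _ _ => h.dm _).c2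
    rw [e] at g1
    rw [hs] at hpair
    have hc : c = y (j + 1) * (y j)⁻¹ * (y (j + 1))⁻¹ * y j := hpair
    rcases hclo with hd | hd | hd
    · rw [hd, hj] at g0; exact lt_irrefl _ g0
    · rw [hd, hd, mul_smul, mul_smul, hji, hm.le, hm.le_inv] at g1
      exact absurd hu (not_lt.mpr g1)
    · rw [hd] at g0
      rw [hd, hd] at g1
      have e1 : (y (j + 1))⁻¹ * c = (y j)⁻¹ * (y (j + 1))⁻¹ * y j := by rw [hc]; group
      have g2 : ((y (j + 1))⁻¹ * c) • f < f := by
        rw [e1, mul_smul, mul_smul, hj, hm.inv_lt, hj, hm.inv_lt]; exact hu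
      exact absurd (lt_of_lt_of_le g0 g1) (not_lt.mpr g2.le)
  · -- type true: first growth condition
    have base : CA (s j) f (y j) (y (j + 1)) :=
      ⟨hj.ge, by rw [hji]; exact hu.le, hu, by rw [hs]; simp⟩
    have g0 : f < y (j + (k + 1)) • f := (growA hm h.pair base k fun _ _ => h.dm _).c0
    have g1 := (growA hm h.pair base (k + 1) fun _ _ => h.dm _).c2
    rw [e] at g1
    rw [hs] at hpair
    have hc : c = y j * (y (j + 1))⁻¹ * (y j)⁻¹ * y (j + 1) := hpair
    rcases hclo with hd | hd | hd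
    · rw [hd, hj] at g0; exact lt_irrefl _ g0
    · rw [hd, mul_smul, hji] at g0
      rw [hd, hd, ← mul_smul] at g1
      have e1 : c * (y (j + 1))⁻¹ * (c * (y j)⁻¹)⁻¹ = y j * (y (j + 1))⁻¹ * c⁻¹ := by
        have e2 : c * (y (j + 1))⁻¹ * y j = y j * (y (j + 1))⁻¹ := by rw [hc]; group
        calc c * (y (j + 1))⁻¹ * (c * (y j)⁻¹)⁻¹ = (c * (y (j + 1))⁻¹ * y j) * c⁻¹ := by group
          _ = _ := by rw [e2]
      rw [e1, mul_smul, mul_smul, ← hm.inv_le, hji, hm.le_inv] at g1
      have g2 : f < c⁻¹ • f := lt_of_lt_of_le hu g1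
      have g3 := (hm.lt c).mpr g2
      rw [smul_inv_smul] at g3
      exact absurd g0 (not_lt.mpr g3.le)
    · rw [hd, hd, ← mul_smul] at g1
      have e1 : (y (j + 1))⁻¹ * c * ((y j)⁻¹ * c)⁻¹ = (y (j + 1))⁻¹ * y j := by group
      rw [e1, mul_smul, hj, hm.le_inv] at g1
      exact absurd hu (not_lt.mpr g1)

theorem fix_next (hm : Mono G X) (h : Sq X y c s) {n : ℕ} (hn : 1 ≤ n)
    (hclo : Clo n y c) {f : X} {j : ℕ} (hj : y j • f = f) : y (j + 1) • f = f := by
  rcases lt_trichotomy (y (j + 1) • f) f with h1 | h1 | h1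
  · exact (not_up_of_fix (X := Xᵒᵈ) hm.dual h.dual hn hclo (f := f) hj h1).elim
  · exact h1
  · exact (not_up_of_fix hm h hn hclo hj h1).elim

/-- A fixed point of one meridian is fixed by all. -/
theorem fix_all (hm : Mono G X) (h : Sq X y c s) {n : ℕ} (hn : 1 ≤ n)
    (hclo : Clo n y c) {f : X} {j : ℕ} (hj : y j • f = f) :
    c • f = f ∧ ∀ i, y i • f = f := by
  have up : ∀ m, y (j + m) • f = f := by
    intro m
    induction m with
    | zero => exact hj
    | succ m ih => exact fix_next hm h hn hclo ih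
  have hc : c • f = f := fix_c' h.pair hj (up 1)
  refine ⟨hc, ?_⟩
  have back : ∀ i, y (i + n) • f = f → y i • f = f := by
    intro i hi
    rcases hclo with hd | hd | hd
    · rwa [hd] at hi
    · have e : y i = (y (i + n))⁻¹ * c := by rw [hd]; group
      rw [e, mul_smul, hc]; exact inv_fix hi
    · have e : y i = c * (y (i + n))⁻¹ := by rw [hd]; group
      rw [e, mul_smul, inv_fix hi, hc]
  have back2 : ∀ m i, y (i + m * n) • f = f → y i • f = f := by
    intro m
    induction m with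
    | zero => intro i hi; simpa using hi
    | succ m ih =>
      intro i hi
      refine ih i (back _ ?_)
      have : i + m * n + n = i + (m + 1) * n := by ring
      rw [this]; exact hi
  intro i
  refine back2 j i ?_
  have h1 : j ≤ i + j * n := le_trans (Nat.le_mul_of_pos_right j hn) (Nat.le_add_left _ _)
  obtain ⟨k, hk⟩ := Nat.exists_eq_add_of_le h1
  rw [hk]; exact up k

end

end Pool.Agent.TH744.Tree
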