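import Pool.Agent.TH744.Tree.Data

set_option autoImplicit false
set_option linter.unusedSectionVars false

/-!
# Groups with a tame cusp
-/

namespace Pool.Agent.TH744.Tree

open Pool.Agent.TH744.LS (Mono inv_fix)
open Pool.Agent.TH744.Chain (Fx Up Dn exists_comp tw del)

universe u v

/-- A group with a commuting pair `μ, l` such that in every order preserving action on a complete
linear order the fixed points of `μ` are global fixed points, and where `μ` moves a point up all
products `μ ^ a * l ^ b` with `2 |b| < a` move it up, too. -/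
structure Tame (G : Type v) [Group G] (μ l : G) : Prop where
  comm : Commute μ l
  fix : ∀ (X : Type u) [CompleteLinearOrder X] (ρ : G →* (X ≃o X)) (x : X), ρ μ x = x →
    ∀ g, ρ g x = x
  det : ∀ (X : Type u) [CompleteLinearOrder X] (ρ : G →* (X ≃o X)) (a b : ℤ), 2 * |b| < a →
    ∀ x, x < ρ μ x → x < ρ (μ ^ a * l ^ b) x

/-! ### Automorphism groups of linear orders -/

section aut
variable {X : Type u} [CompleteLinearOrder X]

theorem mono_aut : Mono (X ≃o X) X := fun g _ _ h => g.lt_iff_lt.mpr h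

/-- The dual order automorphisms. -/
def dualHom {G : Type v} [Group G] (ρ : G →* (X ≃o X)) : G →* (Xᵒᵈ ≃o Xᵒᵈ) where
  toFun g := (ρ g).dual
  map_one' := by rw [map_one]; rfl
  map_mul' g h := by rw [map_mul]; rfl

theorem dualHom_apply {G : Type v} [Group G] (ρ : G →* (X ≃o X)) (g : G) (x : X) :
    dualHom ρ g x = ρ g x := rfl

/-- Restriction to an invariant interval. -/
def restr {G : Type v} [Group G] (ρ : G →* (X ≃o X)) {α β : X} (hα : ∀ g, ρ g α = α)
    (hβ : ∀ g, ρ g β = β) : G →* (Set.Icc α β ≃o Set.Icc α β) where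
  toFun g :=
    { toFun := fun z => ⟨ρ g z.1, by
        have := (ρ g).le_iff_le.mpr z.2.1; rwa [hα] at this, by
        have := (ρ g).le_iff_le.mpr z.2.2; rwa [hβ] at this⟩
      invFun := fun z => ⟨ρ g⁻¹ z.1, by
        have := (ρ g⁻¹).le_iff_le.mpr z.2.1; rwa [hα] at this, by
        have := (ρ g⁻¹).le_iff_le.mpr z.2.2; rwa [hβ] at this⟩
      left_inv := fun z => by
        apply Subtype.ext
        show ρ g⁻¹ (ρ g z.1) = z.1
        rw [← RelIso.mul_apply, ← map_mul, inv_mul_cancel, map_one]; rfl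
      right_inv := fun z => by
        apply Subtype.ext
        show ρ g (ρ g⁻¹ z.1) = z.1
        rw [← RelIso.mul_apply, ← map_mul, mul_inv_cancel, map_one]; rfl
      map_rel_iff' := fun {z w} => (ρ g).le_iff_le (x := z.1) (y := w.1) }
  map_one' := by
    ext z
    show ρ 1 z.1 = z.1
    rw [map_one]; rfl
  map_mul' g h := by
    ext z
    show ρ (g * h) z.1 = ρ g (ρ h z.1)
    rw [map_mul]; rfl

theorem restr_coe {G : Type v} [Group G] (ρ : G →* (X ≃o X)) {α β : X} (hα : ∀ g, ρ g α = α)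
    (hβ : ∀ g, ρ g β = β) (g : G) (z : Set.Icc α β) : ((restr ρ hα hβ g z : Set.Icc α β) : X) =
      ρ g z.1 := rfl

/-- Component of the complement of the fixed points of an order automorphism. -/
theorem comp_of_up (g : X ≃o X) {x : X} (hx : x < g x) :
    ∃ α β : X, α < x ∧ x < β ∧ g α = α ∧ g β = β ∧ ∀ z, α < z → z < β → z < g z := by
  obtain ⟨α, β, h1, h2, hy, -, σ, hσ⟩ := exists_comp (G := X ≃o X) (X := X) mono_aut
    (y := fun _ => g) (c := 1) (fun f _ hf => ⟨one_smul _ f, fun _ => hf⟩) (v0 := x)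
    (fun h => absurd hx (by rw [show g x = x from h]; exact lt_irrefl _))
  refine ⟨α, β, h1, h2, (hy 0).1, (hy 0).2, ?_⟩
  rcases hs : σ 0 with _ | _
  · exact absurd hx (not_lt.mpr ((hσ 0).2 hs x h1 h2).le)
  · exact (hσ 0).1 hs

theorem pow_succ_apply (g : X ≃o X) (k : ℕ) (x : X) : (g ^ (k + 1)) x = g ((g ^ k) x) := by
  rw [pow_succ']; rfl

theorem pow_succ_apply' (g : X ≃o X) (k : ℕ) (x : X) : (g ^ (k + 1)) x = (g ^ k) (g x) := by
  rw [pow_succ]; rfl

/-- The orbit of a point is cofinal in the component. -/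
theorem cofinal (g : X ≃o X) {x α β : X} (h1 : α < x) (hup : ∀ z, α < z → z < β → z < g z)
    {z : X} (h2 : z < β) : ∃ k : ℕ, z ≤ (g ^ k) x := by
  by_contra hcon
  rw [not_exists] at hcon
  have hlt : ∀ k : ℕ, (g ^ k) x < z := fun k => not_le.mp (hcon k)
  set S := ⨆ k : ℕ, (g ^ k) x with hS
  have hSz : S ≤ z := iSup_le fun k => (hlt k).le
  have hxS : x ≤ S := by
    have := le_iSup (fun k : ℕ => (g ^ k) x) 0
    simpa using this
  have hg : g S ≤ S := by
    rw [hS, g.map_iSup]
    refine iSup_le fun k => ?_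
    have := le_iSup (fun k : ℕ => (g ^ k) x) (k + 1)
    rwa [pow_succ_apply] at this
  exact absurd (hup S (lt_of_lt_of_le h1 hxS) (lt_of_le_of_lt hSz h2)) (not_lt.mpr hg)

/-- The orbit of a point is coinitial in the component. -/
theorem coinitial (g : X ≃o X) {x α β : X} (h1 : x < β) (hup : ∀ z, α < z → z < β → z < g z)
    {z : X} (h2 : α < z) : ∃ k : ℕ, x ≤ (g ^ k) z := by
  by_contra hcon
  rw [not_exists] at hcon
  have hlt : ∀ k : ℕ, (g ^ k) z < x := fun k => not_le.mp (hcon k)
  obtain ⟨k, hk⟩ := cofinal g h2 hup h1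
  exact absurd (hlt k) (not_lt.mpr hk)

theorem pow_le_iff (g : X ≃o X) {x : X} (hx : x < g x) {i j : ℕ} (h : (g ^ i) x ≤ (g ^ j) x) :
    i ≤ j := by
  by_contra hcon
  rw [not_le] at hcon
  obtain ⟨k, rfl⟩ := Nat.exists_eq_add_of_lt hcon
  have key : ∀ k : ℕ, x < (g ^ (k + 1)) x := by
    intro k
    induction k with
    | zero => simpa using hx
    | succ k ih =>
      rw [pow_succ_apply]
      exact hx.trans (g.lt_iff_lt.mpr ih)
  have h1 : (g ^ j) x < (g ^ j) ((g ^ (k + 1)) x) := (g ^ j).lt_iff_lt.mpr (key k)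
  rw [← RelIso.mul_apply, ← pow_add, ← add_assoc] at h1
  exact absurd h (not_le.mpr h1)

theorem pow_comm_apply {g l : X ≃o X} (hc : Commute g l) (i j : ℕ) (x : X) :
    (g ^ i) ((l ^ j) x) = (l ^ j) ((g ^ i) x) := by
  rw [← RelIso.mul_apply, ← RelIso.mul_apply, (hc.pow_pow i j).eq]

/-- If the translation number of `l` is more than twice the one of `g`, then `l` strictly
dominates `g ^ 2`. -/
theorem dominate {g l : X ≃o X} (hc : Commute g l) {x α β : X} (h1 : α < x) (h2 : x < β)
    (hup : ∀ z, α < z → z < β → z < g z) {A m : ℕ} (hA : 2 * m < A)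
    (hx : (g ^ A) x ≤ (l ^ m) x) {z : X} (z1 : α < z) (z2 : z < β) : g (g z) < l z := by
  by_contra hcon
  rw [not_lt] at hcon
  have H1 : ∀ k : ℕ, (g ^ (A * k)) x ≤ (l ^ (m * k)) x := by
    intro k
    induction k with
    | zero => simp
    | succ k ih =>
      have e1 : (g ^ (A * (k + 1))) x = (g ^ (A * k)) ((g ^ A) x) := by
        rw [← RelIso.mul_apply, ← pow_add]; congr 2
      have e2 : (l ^ (m * (k + 1))) x = (l ^ m) ((l ^ (m * k)) x) := by
        rw [← RelIso.mul_apply, ← pow_add]; congr 2; ring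
      rw [e1, e2]
      refine ((g ^ (A * k)).le_iff_le.mpr hx).trans ?_
      rw [pow_comm_apply hc]
      exact (l ^ m).le_iff_le.mpr ih
  have H2 : ∀ j : ℕ, (l ^ j) z ≤ (g ^ (2 * j)) z := by
    intro j
    induction j with
    | zero => simp
    | succ j ih =>
      have e2 : (g ^ (2 * (j + 1))) z = (g ^ 2) ((g ^ (2 * j)) z) := by
        rw [← RelIso.mul_apply, ← pow_add]; congr 2; ring
      rw [pow_succ_apply', e2]
      refine ((l ^ j).le_iff_le.mpr hcon).trans ?_
      have e3 : g (g z) = (g ^ 2) z := by rw [pow_two]; rfl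
      rw [e3, ← pow_comm_apply hc]
      exact (g ^ 2).le_iff_le.mpr ih
  obtain ⟨K, hK⟩ := cofinal g h1 hup z2
  obtain ⟨K', hK'⟩ := coinitial g h2 hup z1
  have key : ∀ k : ℕ, A * k ≤ K' + 2 * (m * k) + K := by
    intro k
    apply pow_le_iff g (hup x h1 h2)
    calc (g ^ (A * k)) x ≤ (l ^ (m * k)) x := H1 k
      _ ≤ (l ^ (m * k)) ((g ^ K') z) := (l ^ (m * k)).le_iff_le.mpr hK'
      _ = (g ^ K') ((l ^ (m * k)) z) := (pow_comm_apply hc _ _ _).symm
      _ ≤ (g ^ K') ((g ^ (2 * (m * k))) z) := (g ^ K').le_iff_le.mpr (H2 _)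
      _ ≤ (g ^ K') ((g ^ (2 * (m * k))) ((g ^ K) x)) :=
        (g ^ K').le_iff_le.mpr ((g ^ (2 * (m * k))).le_iff_le.mpr hK)
      _ = (g ^ (K' + 2 * (m * k) + K)) x := by
        rw [pow_add, pow_add, RelIso.mul_apply, RelIso.mul_apply]
  have h3 := key (K' + K + 1)
  have h4 : (2 * m + 1) * (K' + K + 1) ≤ A * (K' + K + 1) := Nat.mul_le_mul_right _ hA
  nlinarith

end aut

/-! ### Chain links with one open cusp -/

/-- The signs, with the sign of the open cusp replaced by `σ`. -/
def set0 (n : ℕ) (s : ℕ → Bool) (σ : Bool) (i : ℕ) : Bool := if i % n = 0 then σ else s i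

theorem set0_per {n : ℕ} {s : ℕ → Bool} (ps : ∀ i, s (i + n) = s i) (σ : Bool) (i : ℕ) :
    set0 n s σ (i + n) = set0 n s σ i := by
  unfold set0
  rw [Nat.add_mod_right, ps]

theorem set0_of_lt {n : ℕ} {s : ℕ → Bool} (σ : Bool) {i : ℕ} (hi : i + 1 < n) :
    set0 n s σ (i + 1) = s (i + 1) := by
  unfold set0
  rw [Nat.mod_eq_of_lt hi, if_neg (by omega)]

theorem set0_self {n : ℕ} {s : ℕ → Bool} (σ : Bool) : set0 n s σ n = σ := by
  unfold set0
  rw [Nat.mod_self, if_pos rfl]

theorem tws_set0 {n : ℕ} (hn : 1 ≤ n) (e s : ℕ → Bool) :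
    tws e (set0 n s false) n = tws e (set0 n s true) n + 1 := by
  have key : ∀ k, 1 ≤ k → k ≤ n → tws e (set0 n s false) k = tws e (set0 n s true) k + 1 := by
    intro k hk
    induction k, hk using Nat.le_induction with
    | base =>
      intro _
      show 0 + del (set0 n s false 0) (!e 0) = 0 + del (set0 n s true 0) (!e 0) + 1
      have h1 : ∀ σ, set0 n s σ 0 = σ := fun σ => by unfold set0; rw [Nat.zero_mod, if_pos rfl]
      rw [h1, h1]
      unfold del
      cases e 0 <;> simp
    | succ k hk ih =>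
      intro hk'
      show tws e (set0 n s false) k + del (set0 n s false k) (!e k) =
        tws e (set0 n s true) k + del (set0 n s true k) (!e k) + 1
      rw [ih (by omega)]
      have h1 : ∀ σ, set0 n s σ k = s k := by
        intro σ
        obtain ⟨j, rfl⟩ := Nat.exists_eq_add_of_le' hk
        exact set0_of_lt σ (by omega)
      rw [h1, h1]; ring
  exact key n hn le_rfl

/-- The relations of a chain link in a group all of whose cusps but the first are capped. -/
structure Node (G : Type v) [Group G] (n : ℕ) (o m : ℕ → G) (e s : ℕ → Bool) : Prop where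
  link : Link n o m e
  hn : 1 ≤ n
  ps : ∀ i, s (i + n) = s i
  cap : ∀ (X : Type u) [CompleteLinearOrder X] (ρ : G →* (X ≃o X)) (i : ℕ), i + 1 < n →
    Cp X (s (i + 1)) (ρ (o (i + 1))) (ρ (lon o m e i))
  gen : ∀ (X : Type u) [CompleteLinearOrder X] (ρ : G →* (X ≃o X)) (x : X),
    (∀ i, ρ (o i) x = x) → (∀ i, ρ (m i) x = x) → ∀ g, ρ g x = x

theorem Link.comm {G : Type v} [Group G] {n : ℕ} {o m : ℕ → G} {e : ℕ → Bool}
    (h : Link n o m e) (i : ℕ) : Commute (o (i + 1)) (lon o m e i) := by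
  have h1 := tri_base (R := fun _ M => M = lon o m e i) (s := true) (s' := true) (h.pair i)
    (h.pair (i + 1)) (by
      show (if (true : Bool) then _ else _) = _
      rw [if_pos rfl, h.lr, inv_inv])
  have h2 := Pool.Agent.TH744.Chain.mel_comm h1.p1 h1.p2
  rw [show Pool.Agent.TH744.Chain.Mel _ _ _ _ _ = lon o m e i from h1.rel] at h2
  have := h2.inv_left
  rwa [inv_inv] at this

theorem Link.map {G : Type v} [Group G] {H : Type*} [Group H] {n : ℕ} {o m : ℕ → G}
    {e : ℕ → Bool} (h : Link n o m e) (f : G →* H) :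
    Link n (fun i => f (o i)) (fun i => f (m i)) e := by
  refine ⟨fun i => ?_, fun i => ?_, fun i => by rw [h.po], h.pe⟩
  · have := h.out i
    split_ifs at this ⊢ <;> simpa using congrArg f this
  · have := h.inn i
    split_ifs at this ⊢ <;> simpa using congrArg f this

theorem lon_map {G : Type v} [Group G] {H : Type*} [Group H] {o m : ℕ → G}
    {e : ℕ → Bool} (f : G →* H) (i : ℕ) :
    lon (fun i => f (o i)) (fun i => f (m i)) e i = f (lon o m e i) := by
  unfold lon
  split_ifs <;> simp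

variable {G : Type v} [Group G] {n : ℕ} {o m : ℕ → G} {e s : ℕ → Bool}

theorem Link.mfix (h : Link n o m e) {X : Type u} [CompleteLinearOrder X] {x : X}
    (ρ : G →* (X ≃o X))
    (hc : cc (fun i => ρ (o i)) (fun i => ρ (m i)) • x = x) (ho : ∀ i, ρ (o i) • x = x) (i : ℕ) :
    ρ (m i) x = x := by
  have h1 := (h.map ρ).m_eq i
  show ρ (m i) • x = x
  rw [show ρ (m i) = _ from h1, mul_smul, hc, ho]

/-- A chain link all of whose cusps but the first are capped has a tame first cusp. -/
theorem Node.tame (h : Node.{u} G n o m e s)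
    (ht : tws e (set0 n s true) n = 0 ∨ tws e (set0 n s true) n = -1) :
    Tame.{u} G (o 0) (lon o m e (n - 1)) := by
  have hn := h.hn
  have en : n - 1 + 1 = n := by omega
  have on : o n = o 0 := by have := h.link.po 0; rwa [zero_add] at this
  have hcomm : Commute (o 0) (lon o m e (n - 1)) := by
    have := h.link.comm (n - 1)
    rwa [en, on] at this
  have hfix : ∀ (X : Type u) [CompleteLinearOrder X] (ρ : G →* (X ≃o X)) (x : X),
      ρ (o 0) x = x → ∀ g, ρ g x = x := by
    intro X _ ρ x hx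
    obtain ⟨σ, hσ⟩ : ∃ σ, tws e (set0 n s σ) n = 0 := by
      rcases ht with ht | ht
      · exact ⟨true, ht⟩
      · exact ⟨false, by rw [tws_set0 hn, ht]; rfl⟩
    have key := (h.link.map ρ).openfix (X := X) (s := set0 n s σ) mono_aut hn (set0_per h.ps σ)
      (fun i hi => by
        rw [set0_of_lt σ hi, lon_map]
        exact h.cap X ρ i hi) hσ hx
    exact h.gen X ρ x key.2 (h.link.mfix ρ key.1 key.2)
  refine ⟨hcomm, hfix, ?_⟩
  intro X _ ρ a b hab x hx
  by_contra hcon
  rw [not_lt] at hcon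
  obtain ⟨α, β, h1, h2, hα, hβ, hup⟩ := comp_of_up (ρ (o 0)) hx
  have fα := hfix X ρ α hα
  have fβ := hfix X ρ β hβ
  -- the direction in which the longitude wins
  obtain ⟨σ, hdom⟩ : ∃ σ : Bool, ∀ z, α < z → z < β →
      ρ (o 0) (ρ (o 0) z) < ρ (if σ then (lon o m e (n - 1))⁻¹ else lon o m e (n - 1)) z := by
    have hcρ : Commute (ρ (o 0)) (ρ (lon o m e (n - 1))) := by
      show _ * _ = _ * _
      rw [← map_mul, hcomm.eq, map_mul]
    have ha : 0 < a := lt_of_le_of_lt (by positivity) hab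
    obtain ⟨A, rfl⟩ := Int.eq_ofNat_of_zero_le ha.le
    rcases le_total 0 b with hb | hb
    · obtain ⟨k, rfl⟩ := Int.eq_ofNat_of_zero_le hb
      refine ⟨true, fun z z1 z2 => ?_⟩
      rw [if_pos rfl]
      have hc' : Commute (ρ (o 0)) (ρ (lon o m e (n - 1))⁻¹) := by
        rw [map_inv]; exact hcρ.inv_right
      refine dominate hc' h1 h2 hup (A := A) (m := k) ?_ ?_ z1 z2
      · have h3 : |(k : ℤ)| = k := abs_of_nonneg (by positivity)
        rw [h3] at hab
        exact_mod_cast hab
      · rw [map_inv, inv_pow]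
        have e1 : ρ (o 0 ^ (A : ℤ) * lon o m e (n - 1) ^ (k : ℤ)) x =
            (ρ (lon o m e (n - 1)) ^ k) ((ρ (o 0) ^ A) x) := by
          rw [(hcomm.zpow_zpow _ _).eq, map_mul, zpow_natCast, zpow_natCast, map_pow, map_pow]
          rfl
        rw [e1] at hcon
        rw [← (ρ (lon o m e (n - 1)) ^ k).le_iff_le, ← RelIso.mul_apply
          (ρ (lon o m e (n - 1)) ^ k) ((ρ (lon o m e (n - 1)) ^ k)⁻¹), mul_inv_cancel]
        exact hcon
    · obtain ⟨k, hk⟩ := Int.eq_ofNat_of_zero_le (neg_nonneg.mpr hb)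
      have hb' : b = -(k : ℤ) := by rw [← hk]; ring
      subst hb'
      refine ⟨false, fun z z1 z2 => ?_⟩
      rw [if_neg (by simp)]
      refine dominate hcρ h1 h2 hup (A := A) (m := k) ?_ ?_ z1 z2
      · have h3 : |(-(k : ℤ))| = k := by rw [abs_neg]; exact abs_of_nonneg (by positivity)
        rw [h3] at hab
        exact_mod_cast hab
      · have e1 : ρ (o 0 ^ (A : ℤ) * lon o m e (n - 1) ^ (-(k : ℤ))) x =
            (ρ (lon o m e (n - 1)) ^ k)⁻¹ ((ρ (o 0) ^ A) x) := by
          rw [(hcomm.zpow_zpow _ _).eq, map_mul, zpow_natCast, zpow_neg, zpow_natCast, map_inv,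
            map_pow, map_pow]
          rfl
        rw [e1] at hcon
        have h3 := (ρ (lon o m e (n - 1)) ^ k).le_iff_le.mpr hcon
        rw [← RelIso.mul_apply, mul_inv_cancel] at h3
        exact h3
  -- restrict to the interval
  have hαβ : α ≤ β := (h1.trans h2).le
  haveI : Fact (α ≤ β) := ⟨hαβ⟩
  let ρ' : G →* (Set.Icc α β ≃o Set.Icc α β) := restr ρ fα fβ
  have int : ∀ z : Set.Icc α β, z < ρ' (o 0) z → α < z.1 ∧ z.1 < β := by
    intro z hz
    have hz' : z.1 < ρ (o 0) z.1 := hz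
    constructor
    · refine lt_of_le_of_ne z.2.1 fun he => ?_
      rw [← he, fα] at hz'
      exact lt_irrefl _ hz'
    · refine lt_of_le_of_ne z.2.2 fun he => ?_
      rw [he, fβ] at hz'
      exact lt_irrefl _ hz'
  have ends : ∀ z : Set.Icc α β, (α < z.1 ∧ z.1 < β) ∨ ∀ g, ρ' g z = z := by
    intro z
    rcases eq_or_lt_of_le z.2.1 with he | hl
    · right; intro g
      apply Subtype.ext
      show ρ g z.1 = z.1
      rw [← he, fα]
    · rcases eq_or_lt_of_le z.2.2 with he | hr
      · right; intro g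
        apply Subtype.ext
        show ρ g z.1 = z.1
        rw [he, fβ]
      · exact Or.inl ⟨hl, hr⟩
  have capS : DmS (Set.Icc α β) (ρ' (o 0))
      (ρ' (if σ then (lon o m e (n - 1))⁻¹ else lon o m e (n - 1))) := by
    constructor
    · intro z hz
      have hz1 := int z hz
      exact hdom z.1 hz1.1 hz1.2
    · intro z hz
      have hz' : ρ (o 0) z.1 < z.1 := hz
      rcases ends z with hh | hh
      · exact absurd (hup z.1 hh.1 hh.2) (not_lt.mpr hz'.le)
      · have := hh (o 0)
        have h4 : ρ (o 0) z.1 = z.1 := congrArg Subtype.val this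
        rw [h4] at hz'
        exact absurd hz' (lt_irrefl _)
  have cap0 : Dm (Set.Icc α β) (ρ' (o 0))
      (ρ' (if σ then (lon o m e (n - 1))⁻¹ else lon o m e (n - 1))) := by
    constructor
    · intro z hz
      rcases ends z with hh | hh
      · exact (capS.up z (hup z.1 hh.1 hh.2)).le
      · show ρ' (o 0) (ρ' (o 0) z) ≤ ρ' _ z
        rw [hh, hh, hh]
    · intro z hz
      rcases ends z with hh | hh
      · have : ρ (o 0) z.1 ≤ z.1 := hz
        exact absurd (hup z.1 hh.1 hh.2) (not_lt.mpr this)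
      · show ρ' _ z ≤ ρ' (o 0) (ρ' (o 0) z)
        rw [hh, hh, hh]
  have mapif : ∀ z : G, (if σ then ρ' z else (ρ' z)⁻¹) =
      (ρ' (if σ then z⁻¹ else z))⁻¹ := by
    intro z; cases σ
    · rfl
    · show ρ' z = (ρ' z⁻¹)⁻¹
      rw [map_inv, inv_inv]
  have hcap : ∀ i < n, Cp (Set.Icc α β) (set0 n s σ (i + 1)) (ρ' (o (i + 1)))
      (lon (fun i => ρ' (o i)) (fun i => ρ' (m i)) e i) := by
    intro i hi
    rw [lon_map]
    rcases Nat.lt_or_ge (i + 1) n with hlt | hge
    · rw [set0_of_lt σ hlt]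
      exact h.cap (Set.Icc α β) ρ' i hlt
    · have hi' : i = n - 1 := by omega
      subst hi'
      unfold Cp
      rw [en, set0_self, on, mapif]
      exact cap0.inv mono_aut
  have htw : (tws e (set0 n s σ) n = 1 ∨ tws e (set0 n s σ) n = -1) ∨
      (tws e (set0 n s σ) n = 0 ∧ ∃ i, CpS (Set.Icc α β) (set0 n s σ (i + 1)) (ρ' (o (i + 1)))
        (lon (fun i => ρ' (o i)) (fun i => ρ' (m i)) e i)) := by
    have hS : ∃ i, CpS (Set.Icc α β) (set0 n s σ (i + 1)) (ρ' (o (i + 1)))
        (lon (fun i => ρ' (o i)) (fun i => ρ' (m i)) e i) := by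
      refine ⟨n - 1, ?_⟩
      unfold CpS
      rw [en, set0_self, on, lon_map, mapif]
      exact capS.inv mono_aut
    have e2 := tws_set0 hn e s
    cases σ
    · rcases ht with ht | ht
      · left; left; rw [e2, ht]; rfl
      · right; exact ⟨by rw [e2, ht]; rfl, hS⟩
    · rcases ht with ht | ht
      · right; exact ⟨ht, hS⟩
      · left; right; exact ht
  have fin := (h.link.map ρ').closed (X := Set.Icc α β) mono_aut hn (set0_per h.ps σ) hcap htw
    ⟨x, h1.le, h2.le⟩
  have h5 : ρ (o 0) x = x := congrArg Subtype.val (fin.2 0)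
  rw [h5] at hx
  exact lt_irrefl _ hx

end Pool.Agent.TH744.Tree
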